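import Pool.Agent.Work.MP_7b0bad_ag.AP.Stmts

set_option autoImplicit false

/-!
# APCpl: existence of completions

`B` is a Galois algebra over `k[x]`, `y` a point over `a`. There is `θ` in `B` with `y θ = 1` and
`y (g θ) = 0` for `g ≠ 1`. Hensel's lemma gives a root `x` of `F = ∏ (Y - g θ)` in `k[[s]]` with
constant term `1`, and `j b = P_b(x) / F'(x)`, `P_b = ∑_g (g b) ∏_{h ≠ g} (Y - h θ)`.
-/

namespace MP7b0bad

open Polynomial

section Alg

variable (G : Type) [Group G] [Fintype G] [DecidableEq G] {B : Type} [CommRing B]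
  [MulSemiringAction G B]

/-- `∏ (Y - g θ)` -/
noncomputable def APCpl_F (t : B) : B[X] := ∏ h : G, (X - C (h • t))

/-- `∑_g (g b) ∏_{h ≠ g} (Y - h θ)` -/
noncomputable def APCpl_P (t b : B) : B[X] :=
  ∑ g : G, C (g • b) * ∏ h ∈ Finset.univ.erase g, (X - C (h • t))

omit [DecidableEq G] in
theorem APCpl_F_monic (t : B) : (APCpl_F G t).Monic :=
  monic_prod_of_monic _ _ fun _ _ => monic_X_sub_C _

theorem APCpl_der (t : B) : derivative (APCpl_F G t) = APCpl_P G t 1 := by
  unfold APCpl_F APCpl_P
  rw [derivative_prod_finset]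
  refine Finset.sum_congr rfl fun g _ => ?_
  simp

theorem APCpl_add (t b c : B) : APCpl_P G t (b + c) = APCpl_P G t b + APCpl_P G t c := by
  unfold APCpl_P
  rw [← Finset.sum_add_distrib]
  refine Finset.sum_congr rfl fun g _ => ?_
  rw [smul_add, C_add, add_mul]

omit [DecidableEq G] in
theorem APCpl_F_inv (t : B) (s : G) :
    (APCpl_F G t).map (MulSemiringAction.toRingHom G B s) = APCpl_F G t := by
  unfold APCpl_F
  rw [Polynomial.map_prod]
  refine Fintype.prod_equiv (Equiv.mulLeft s) _ _ fun h => ?_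
  simp [mul_smul]

theorem APCpl_P_inv (t b : B) (s : G) :
    (APCpl_P G t b).map (MulSemiringAction.toRingHom G B s) = APCpl_P G t b := by
  unfold APCpl_P
  rw [Polynomial.map_sum]
  refine Fintype.sum_equiv (Equiv.mulLeft s) _ _ fun g => ?_
  rw [Polynomial.map_mul, Polynomial.map_prod]
  congr 1
  · simp [mul_smul]
  · refine Finset.prod_equiv (Equiv.mulLeft s) ?_ ?_
    · intro i
      simp
    · intro i _
      simp [mul_smul]

theorem APCpl_dvd (t b c : B) :
    APCpl_F G t ∣ APCpl_P G t b * APCpl_P G t c - APCpl_P G t 1 * APCpl_P G t (b * c) := by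
  have h1 : APCpl_P G t b * APCpl_P G t c - APCpl_P G t 1 * APCpl_P G t (b * c) =
      ∑ g : G, ∑ g' : G, C (g • b) * (C (g' • c) - C (g • c)) *
        ((∏ h ∈ Finset.univ.erase g, (X - C (h • t))) *
          ∏ h ∈ Finset.univ.erase g', (X - C (h • t))) := by
    rw [mul_comm (APCpl_P G t 1)]
    unfold APCpl_P
    rw [Finset.sum_mul_sum, Finset.sum_mul_sum, ← Finset.sum_sub_distrib]
    refine Finset.sum_congr rfl fun g _ => ?_
    rw [← Finset.sum_sub_distrib]
    refine Finset.sum_congr rfl fun g' _ => ?_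
    rw [smul_one, C_1, smul_mul', C_mul]
    ring
  rw [h1]
  refine Finset.dvd_sum fun g _ => Finset.dvd_sum fun g' _ => ?_
  by_cases hg : g = g'
  · subst hg
    simp
  · refine Dvd.dvd.mul_left ?_ _
    have h2 : (X - C (g • t)) * ∏ h ∈ (Finset.univ.erase g').erase g, (X - C (h • t)) =
        ∏ h ∈ Finset.univ.erase g', (X - C (h • t)) :=
      Finset.mul_prod_erase _ (fun h : G => (X - C (h • t))) (by simp [hg])
    have h3 : (X - C (g • t)) * ∏ h ∈ Finset.univ.erase g, (X - C (h • t)) = APCpl_F G t :=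
      Finset.mul_prod_erase _ (fun h : G => (X - C (h • t))) (by simp)
    refine ⟨∏ h ∈ (Finset.univ.erase g').erase g, (X - C (h • t)), ?_⟩
    rw [← h2, ← h3]
    ring

/-- the value at a point with `y θ = 1`, `y (g θ) = 0` -/
theorem APCpl_ev {k : Type} [Field k] (y : B →+* k) (t b : B) (h1 : y t = 1)
    (h2 : ∀ g : G, g ≠ 1 → y (g • t) = 0) : ((APCpl_P G t b).map y).eval 1 = y b := by
  unfold APCpl_P
  rw [Polynomial.map_sum, eval_finsetSum, Finset.sum_eq_single (1 : G)]
  · rw [Polynomial.map_mul, Polynomial.map_prod, eval_mul, eval_prod, Finset.prod_eq_one]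
    · simp
    · intro g hg
      rw [Finset.mem_erase] at hg
      simp [h2 g hg.1]
  · intro g _ hg
    rw [Polynomial.map_mul, Polynomial.map_prod, eval_mul, eval_prod,
      Finset.prod_eq_zero (i := (1 : G)) (by simp [Ne.symm hg]) (by simp [h1]), mul_zero]
  · intro h
    exact absurd (Finset.mem_univ _) h

omit [DecidableEq G] in
theorem APCpl_evF {k : Type} [Field k] (y : B →+* k) (t : B) (h1 : y t = 1) :
    ((APCpl_F G t).map y).eval 1 = 0 := by
  unfold APCpl_F
  rw [Polynomial.map_prod, eval_prod, Finset.prod_eq_zero (i := (1 : G)) (Finset.mem_univ _)]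
  simp [h1]

end Alg

/-- a polynomial with invariant coefficients comes from `R` -/
theorem APCpl_lift {R : Type} [CommRing R] {G : Type} [Group G] {B : Type} [CommRing B]
    [Algebra R B] [MulSemiringAction G B] (h : GalAlg R G B) (p : B[X])
    (hp : ∀ s : G, p.map (MulSemiringAction.toRingHom G B s) = p) :
    ∃ q : R[X], q.map (algebraMap R B) = p := by
  have h1 : p ∈ lifts (algebraMap R B) := by
    rw [lifts_iff_coeff_lifts]
    intro n
    refine h.inv _ fun g => ?_
    have h2 := congrArg (fun q : B[X] => q.coeff n) (hp g)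
    simpa using h2
  exact (mem_lifts _).1 h1

/-- an element with `y θ = 1` and `y (g θ) = 0` for `g ≠ 1` -/
theorem APCpl_theta {k : Type} [Field k] {G : Type} [Group G] [Fintype G] [DecidableEq G]
    {B : Type} [CommRing B] [Algebra k[X] B] [MulSemiringAction G B] (h : GalAlg k[X] G B)
    (y : B →+* k) (hy : Pt y) : ∃ t : B, y t = 1 ∧ ∀ g : G, g ≠ 1 → y (g • t) = 0 := by
  have h1 : ∀ g : G, ∃ e : B, g ≠ 1 → y e = 1 ∧ y (g • e) = 0 := by
    intro g
    by_cases hg : g = 1
    · exact ⟨0, fun h' => absurd hg h'⟩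
    · obtain ⟨b, hb⟩ : ∃ b : B, y b ≠ y (g • b) := by
        by_contra hne
        push Not at hne
        have h2 := h.unr g hg
        have h3 : Ideal.span {x : B | ∃ b : B, x = b - g • b} ≤ RingHom.ker y := by
          rw [Ideal.span_le]
          rintro x ⟨b, rfl⟩
          show y (b - g • b) = 0
          rw [map_sub, hne b, sub_self]
        rw [h2] at h3
        have h4 : (1 : B) ∈ RingHom.ker y := h3 trivial
        rw [RingHom.mem_ker, map_one] at h4
        exact one_ne_zero h4
      refine ⟨algebraMap k[X] B (C (y b - y (g • b))⁻¹) *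
        (b - algebraMap k[X] B (C (y (g • b)))), fun _ => ⟨?_, ?_⟩⟩
      · rw [map_mul, map_sub, hy, hy]
        exact inv_mul_cancel₀ (sub_ne_zero.2 hb)
      · rw [smul_mul', smul_sub, h.comm, h.comm, map_mul, map_sub, hy, hy, sub_self, mul_zero]
  choose e he using h1
  refine ⟨∏ g ∈ Finset.univ.erase (1 : G), e g, ?_, ?_⟩
  · rw [map_prod]
    refine Finset.prod_eq_one fun g hg => ?_
    rw [Finset.mem_erase] at hg
    exact (he g hg.1).1
  · intro g hg
    rw [Finset.smul_prod', map_prod]
    exact Finset.prod_eq_zero (i := g) (by simp [hg]) (he g hg).2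

theorem APCpl_main {k : Type} [Field k] {G : Type} [Group G] [Fintype G] [DecidableEq G]
    {B : Type} [CommRing B] [Algebra k[X] B] [MulSemiringAction G B] (h : GalAlg k[X] G B)
    (y : B →+* k) (hy : Pt y) : ∃ j : B →+* PowerSeries k,
    (∀ f : k[X], j (algebraMap k[X] B f) =
      f.eval₂ PowerSeries.C (PowerSeries.C (y (algebraMap k[X] B X)) + PowerSeries.X)) ∧
    ∀ b, PowerSeries.constantCoeff (j b) = y b := by
  obtain ⟨t, ht1, ht2⟩ := APCpl_theta h y hy
  set a := y (algebraMap k[X] B X) with ha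
  let φ : k[X] →+* PowerSeries k := eval₂RingHom PowerSeries.C (PowerSeries.C a + PowerSeries.X)
  have hφ : ∀ f : k[X], φ f = f.eval₂ PowerSeries.C (PowerSeries.C a + PowerSeries.X) :=
    fun f => rfl
  have hinj : Function.Injective (Polynomial.map (algebraMap k[X] B)) :=
    Polynomial.map_injective _ h.inj
  have hcc : (PowerSeries.constantCoeff (R := k)).comp φ = y.comp (algebraMap k[X] B) := by
    refine Polynomial.ringHom_ext (fun c => ?_) ?_
    · rw [RingHom.comp_apply, RingHom.comp_apply, hφ, eval₂_C, hy]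
      simp
    · rw [RingHom.comp_apply, RingHom.comp_apply, hφ, eval₂_X, ← ha]
      simp
  obtain ⟨F0, hF0⟩ := APCpl_lift h (APCpl_F G t) (APCpl_F_inv G t)
  choose P0 hP0 using fun b : B => APCpl_lift h (APCpl_P G t b) (APCpl_P_inv G t b)
  have hF0m : F0.Monic := by
    have h1 := APCpl_F_monic G t
    rw [← hF0] at h1
    exact monic_of_injective h.inj h1
  have hdvd : ∀ b c, F0 ∣ P0 b * P0 c - P0 1 * P0 (b * c) := by
    intro b c
    rw [← Polynomial.map_dvd_map (algebraMap k[X] B) h.inj hF0m]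
    rw [Polynomial.map_sub, Polynomial.map_mul, Polynomial.map_mul, hP0, hP0, hP0, hP0, hF0]
    exact APCpl_dvd G t b c
  have hder : derivative F0 = P0 1 := by
    apply hinj
    show (derivative F0).map _ = (P0 1).map _
    rw [← derivative_map, hF0, hP0, APCpl_der]
  -- constant terms
  have hct : ∀ (q : k[X][X]) (x : PowerSeries k), PowerSeries.constantCoeff x = 1 →
      PowerSeries.constantCoeff (q.eval₂ φ x) = ((q.map (algebraMap k[X] B)).map y).eval 1 := by
    intro q x hx
    rw [hom_eval₂, hcc, hx, eval_map, eval₂_map]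
  have hc := B5a_complete k
  have hh : HenselianRing (PowerSeries k) (Ideal.span {(PowerSeries.X : PowerSeries k)}) :=
    inferInstance
  obtain ⟨x, hx1, hx2⟩ := hh.is_henselian (F0.map φ) (hF0m.map _) 1
    (by
      rw [eval_map, Ideal.mem_span_singleton, PowerSeries.X_dvd_iff, hct _ _ (map_one _), hF0]
      exact APCpl_evF G y t ht1)
    (by
      have h1 : IsUnit (eval 1 (derivative (F0.map φ))) := by
        rw [derivative_map, hder, eval_map, PowerSeries.isUnit_iff_constantCoeff,
          hct _ _ (map_one _), hP0, APCpl_ev G y t 1 ht1 ht2, map_one]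
        exact isUnit_one
      exact h1.map _)
  have hx0 : PowerSeries.constantCoeff x = 1 := by
    rw [Ideal.mem_span_singleton, PowerSeries.X_dvd_iff, map_sub, map_one] at hx2
    exact sub_eq_zero.1 hx2
  have hxF : F0.eval₂ φ x = 0 := by
    have h1 : (F0.map φ).eval x = 0 := hx1
    rwa [eval_map] at h1
  have hcP : ∀ b, PowerSeries.constantCoeff ((P0 b).eval₂ φ x) = y b := by
    intro b
    rw [hct _ _ hx0, hP0, APCpl_ev G y t b ht1 ht2]
  have hu : IsUnit ((P0 1).eval₂ φ x) := by
    rw [PowerSeries.isUnit_iff_constantCoeff, hcP, map_one]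
    exact isUnit_one
  obtain ⟨u, hu⟩ := hu
  have hmul : ∀ b c, (P0 b).eval₂ φ x * (P0 c).eval₂ φ x =
      (P0 1).eval₂ φ x * (P0 (b * c)).eval₂ φ x := by
    intro b c
    obtain ⟨q, hq⟩ := hdvd b c
    have h1 := congrArg (fun q : k[X][X] => q.eval₂ φ x) hq
    simp only [eval₂_sub, eval₂_mul, hxF, zero_mul] at h1
    exact sub_eq_zero.1 h1
  have hadd : ∀ b c, P0 (b + c) = P0 b + P0 c := by
    intro b c
    apply hinj
    show (P0 (b + c)).map _ = (P0 b + P0 c).map _
    rw [Polynomial.map_add, hP0, hP0, hP0, APCpl_add]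
  have halg : ∀ f : k[X], P0 (algebraMap k[X] B f) = C f * P0 1 := by
    intro f
    apply hinj
    show (P0 (algebraMap k[X] B f)).map _ = (C f * P0 1).map _
    rw [Polynomial.map_mul, map_C, hP0, hP0]
    unfold APCpl_P
    rw [Finset.mul_sum]
    refine Finset.sum_congr rfl fun g _ => ?_
    rw [h.comm, smul_one, C_1, one_mul]
  have hzero : P0 0 = 0 := by
    have h1 := hadd 0 0
    rw [add_zero] at h1
    exact left_eq_add.1 h1
  let j : B →+* PowerSeries k :=
    { toFun := fun b => (P0 b).eval₂ φ x * ((u⁻¹ : (PowerSeries k)ˣ) : PowerSeries k)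
      map_one' := by
        rw [← hu]
        exact Units.mul_inv u
      map_mul' := fun b c => by
        have h1 := hmul b c
        rw [← hu] at h1
        have h2 : (P0 (b * c)).eval₂ φ x = ((u⁻¹ : (PowerSeries k)ˣ) : PowerSeries k) *
            ((P0 b).eval₂ φ x * (P0 c).eval₂ φ x) := by
          rw [h1, ← mul_assoc, Units.inv_mul, one_mul]
        rw [h2]
        ring
      map_zero' := by
        rw [hzero, eval₂_zero, zero_mul]
      map_add' := fun b c => by
        rw [hadd, eval₂_add, add_mul] }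
  refine ⟨j, fun f => ?_, fun b => ?_⟩
  · show (P0 (algebraMap k[X] B f)).eval₂ φ x * ((u⁻¹ : (PowerSeries k)ˣ) : PowerSeries k) = _
    rw [halg, eval₂_mul, eval₂_C, ← hu, mul_assoc, Units.mul_inv, mul_one, hφ]
  · show PowerSeries.constantCoeff ((P0 b).eval₂ φ x *
      ((u⁻¹ : (PowerSeries k)ˣ) : PowerSeries k)) = y b
    have h1 : PowerSeries.constantCoeff ((u⁻¹ : (PowerSeries k)ˣ) : PowerSeries k) = 1 := by
      have h2 := congrArg (PowerSeries.constantCoeff (R := k)) (Units.mul_inv u)
      rw [map_mul, hu, hcP, map_one, map_one, one_mul] at h2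
      exact h2
    rw [map_mul, h1, mul_one, hcP]

theorem prf_APCpl : APCpl := by
  intro k _ _ G _ _ B _ _ _ h y hy
  classical
  have := Fintype.ofFinite G
  obtain ⟨j, hj1, hj2⟩ := APCpl_main h y hy
  refine ⟨(HahnSeries.ofPowerSeries ℤ k).comp j, ⟨fun c => ?_, ?_⟩, fun b => ?_⟩
  · rw [RingHom.comp_apply, hj1, eval₂_C, HahnSeries.ofPowerSeries_C]
  · rw [RingHom.comp_apply, hj1, eval₂_X, map_add, HahnSeries.ofPowerSeries_C,
      HahnSeries.ofPowerSeries_X]
  · rw [RingHom.comp_apply, ← hj2 b]
    have h1 := HahnSeries.ofPowerSeries_apply_coeff (Γ := ℤ) (R := k) (j b) 0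
    rw [Nat.cast_zero] at h1
    rw [h1]
    simp

end MP7b0bad
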