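import Pool.Agent.Work.MP_7b0bad_ag.AP.Stmts

set_option autoImplicit false

/-!
# APPt: there are points over every `a`
-/

namespace MP7b0bad

open Polynomial TensorProduct

/-- a Galois algebra for a finite group is integral -/
theorem APPt_int {R : Type} [CommRing R] {G : Type} [Group G] [Finite G] {B : Type} [CommRing B]
    [Algebra R B] [MulSemiringAction G B] (h : GalAlg R G B) : Algebra.IsIntegral R B := by
  have h1 : Algebra.IsInvariant R B G := ⟨h.inv⟩
  exact Algebra.IsInvariant.isIntegral R B G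

theorem APPt_pt {k : Type} [Field k] [IsAlgClosed k] {B : Type} [CommRing B] [Algebra k[X] B]
    [Algebra.IsIntegral k[X] B] (hinj : Function.Injective (algebraMap k[X] B)) (a : k) :
    ∃ y : B →+* k, Pt y ∧ y (algebraMap k[X] B X) = a := by
  let P : Ideal k[X] := RingHom.ker (evalRingHom a)
  have hP : P.IsMaximal := RingHom.ker_isMaximal_of_surjective _ fun c => ⟨C c, by simp⟩
  obtain ⟨Q, hQ, hQP⟩ := Ideal.exists_ideal_over_maximal_of_isIntegral (S := B) P (by
    rw [(RingHom.injective_iff_ker_eq_bot _).1 hinj]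
    exact bot_le)
  have hXa : Ideal.Quotient.mk Q (algebraMap k[X] B X) =
      Ideal.Quotient.mk Q (algebraMap k[X] B (C a)) := by
    rw [Ideal.Quotient.eq, ← map_sub]
    have h1 : X - C a ∈ Ideal.comap (algebraMap k[X] B) Q := by
      rw [hQP, RingHom.mem_ker]
      simp
    exact h1
  let := Ideal.Quotient.field Q
  let φ : k →+* B ⧸ Q := (Ideal.Quotient.mk Q).comp ((algebraMap k[X] B).comp C)
  let : Algebra k (B ⧸ Q) := φ.toAlgebra
  have hφ : ∀ c, algebraMap k (B ⧸ Q) c = Ideal.Quotient.mk Q (algebraMap k[X] B (C c)) :=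
    fun _ => rfl
  have hcomp : (algebraMap k (B ⧸ Q)).comp (evalRingHom a) =
      (Ideal.Quotient.mk Q).comp (algebraMap k[X] B) := by
    refine Polynomial.ringHom_ext (fun c => ?_) ?_
    · rw [RingHom.comp_apply, coe_evalRingHom, eval_C, hφ]
      rfl
    · rw [RingHom.comp_apply, coe_evalRingHom, eval_X, hφ, ← hXa]
      rfl
  have hint : Algebra.IsIntegral k (B ⧸ Q) := by
    refine ⟨fun z => ?_⟩
    obtain ⟨b, rfl⟩ := Ideal.Quotient.mk_surjective z
    obtain ⟨p, hp, hp0⟩ := Algebra.IsIntegral.isIntegral (R := k[X]) b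
    refine ⟨p.map (evalRingHom a), hp.map _, ?_⟩
    rw [eval₂_map, hcomp, ← Polynomial.hom_eval₂, hp0, map_zero]
  have hbij := IsAlgClosed.algebraMap_bijective_of_isIntegral (k := k) (K := B ⧸ Q)
  let e : k ≃+* (B ⧸ Q) := RingEquiv.ofBijective (algebraMap k (B ⧸ Q)) hbij
  have he : ∀ c, e.symm (Ideal.Quotient.mk Q (algebraMap k[X] B (C c))) = c := by
    intro c
    have h1 : e c = Ideal.Quotient.mk Q (algebraMap k[X] B (C c)) := rfl
    rw [← h1, RingEquiv.symm_apply_apply]
  refine ⟨(e.symm : (B ⧸ Q) →+* k).comp (Ideal.Quotient.mk Q), fun c => he c, ?_⟩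
  change e.symm (Ideal.Quotient.mk Q (algebraMap k[X] B X)) = a
  rw [hXa, he]

theorem prf_APPt : APPt := by
  intro k _ _ G _ _ B _ _ _ h a
  have h1 := APPt_int h
  exact APPt_pt h.inj a

end MP7b0bad
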