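import Pool.Agent.Work.MP_7b0bad_ag.AP.Stmts

set_option autoImplicit false

/-!
Item APC: all points are congruent modulo `r`

The generic certificate `APK` over `K = k((T))` is spread out over a finitely generated
`k`-algebra `A` and specialised; the leading coefficients of the finitely many Laurent expansions
are kept nonzero.
-/

namespace MP7b0bad

open Polynomial TensorProduct

/-- the order of a Hahn series with a given first nonzero coefficient -/
theorem APC_order {R : Type} [CommRing R] (x : LaurentSeries R) (N : ℤ) (h1 : x.coeff N ≠ 0)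
    (h2 : ∀ m, m < N → x.coeff m = 0) : x ≠ 0 ∧ x.order = N := by
  have hx : x ≠ 0 := by
    rintro rfl
    exact h1 (by simp)
  refine ⟨hx, le_antisymm (HahnSeries.order_le_of_coeff_ne_zero h1) ?_⟩
  by_contra hlt
  exact (HahnSeries.coeff_order_eq_zero.not.2 hx) (h2 _ (not_le.1 hlt))

/-- the functions with divisor `y - y₀ + div (x - a)` modulo `r`, with orders at infinity
independent of `y` -/
theorem APC_main (hCpl : APCpl) (hOrd : APOrd) (hPt : APPt) (hGen : APGen) (hK : APK)
    (hSpr : APSpr) (hExt : APExt) (hLau : APLau) (hSpec : APSpec)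
    (k : Type) [Field k] [IsAlgClosed k] (r : ℕ) (hr : (r : k) ≠ 0)
    (G : Type) [Group G] [Finite G] (B : Type) [CommRing B] [IsDomain B] [Algebra k[X] B]
    [Algebra k B] [IsScalarTower k k[X] B] [MulSemiringAction G B] (hG : GalAlg k[X] G B)
    (n : ℕ) (l : Fin n → B →+* LaurentSeries k) (hl : ∀ i, KHom (l i))
    (hli : ∀ i, Function.Injective (l i)) :
    ∃ (y₀ : B →+* k) (_ : Pt y₀) (nb : ℕ) (b : Fin nb → B) (_ : Gen k b) (c : B) (_ : c ≠ 0)
      (N : Fin n → ℤ), ∀ y : B →+* k, Pt y → y c ≠ 0 →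
        ∃ (f : B) (m : ℕ) (a : Fin m → B), f ≠ 0 ∧ BCert r b y₀ y m f a ∧
          ∀ i, (l i f).order = N i := by
  classical
  have halg : ∀ c : k, algebraMap k B c = algebraMap k[X] B (C c) := by
    intro c
    rw [IsScalarTower.algebraMap_apply k k[X] B]
    rfl
  obtain ⟨y₀, hy₀, hy₀0⟩ := hPt k G B hG 0
  obtain ⟨j₀, hj₀, hj₀c⟩ := hCpl k G B hG y₀ hy₀
  obtain ⟨hneg, -, hinj⟩ := hOrd k G B hG _ j₀ hj₀
  have hinj' := hinj inferInstance
  obtain ⟨nb, b, hb⟩ := hGen k G B hG
  obtain ⟨m, f, c, hf, hcert⟩ := hK k r hr G B hG _ j₀ hj₀ hinj' hneg y₀ hy₀ hj₀c (Fin nb) b hb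
  -- the family of embeddings, `j₀` added
  obtain ⟨L, hLn, hLs⟩ : ∃ L : Option (Fin n) → (B →+* LaurentSeries k),
      L none = j₀ ∧ ∀ i, L (some i) = l i := ⟨fun o => o.elim j₀ l, rfl, fun i => rfl⟩
  have hLK : ∀ o, KHom (L o) := by
    intro o
    cases o with
    | none => rw [hLn]; exact hj₀.1
    | some i => rw [hLs]; exact hl i
  have hLinj : ∀ o, Function.Injective (L o) := by
    intro o
    cases o with
    | none => rw [hLn]; exact hinj'
    | some i => rw [hLs]; exact hli i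
  choose lK hlK hlKinj using fun o => (hLau k B (L o) (hLK o)).1 (Kf k)
  have hlf : ∀ o, lK o f ≠ 0 := fun o h => hf (hlKinj o (hLinj o) (by rw [h, map_zero]))
  have hz0 : ∀ o, (lK o f).coeff (lK o f).order ≠ 0 := fun o =>
    HahnSeries.coeff_order_eq_zero.not.2 (hlf o)
  have hcompat : ∀ c : k, ((kfl k).symm.toRingHom.comp j₀) (algebraMap k B c) =
      algebraMap k (Kf k) c := by
    intro c
    rw [halg]
    change (kfl k).symm (j₀ (algebraMap k[X] B (C c))) = _
    rw [hj₀.1 c]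
    exact (LaurentSeries.algebraMap_apply k c).symm
  obtain ⟨A, i', f', a', hAfg, hZ, hi', hf', hcert'⟩ := hSpr k r (Kf k) B y₀
    ((kfl k).symm.toRingHom.comp j₀) hcompat (Fin nb) b hb m f c hcert
    (Finset.univ.image fun o => (lK o f).coeff (lK o f).order)
  have hzA : ∀ o, (lK o f).coeff (lK o f).order ∈ A := fun o =>
    hZ _ (Finset.mem_image_of_mem _ (Finset.mem_univ o))
  -- the point `B → A` as a homomorphism of algebras
  obtain ⟨i2, hi2⟩ : ∃ i2 : B →ₐ[k] A, ∀ x, i2 x = i' x := by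
    refine ⟨{ i' with commutes' := fun c => ?_ }, fun x => rfl⟩
    apply Subtype.ext
    change (i' (algebraMap k B c) : Kf k) = _
    rw [hi', hcompat]
    rfl
  have hi2inj : Function.Injective i2 := by
    intro x x' hxx
    rw [hi2, hi2] at hxx
    have h1 : (i' x : Kf k) = i' x' := by rw [hxx]
    rw [hi', hi'] at h1
    exact hinj' ((kfl k).symm.injective h1)
  have hBfg : (⊤ : Subalgebra k B).FG := ⟨Finset.univ.image b, by simpa using hb.2⟩
  have hAfg' : (⊤ : Subalgebra k A).FG := A.fg_top.2 hAfg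
  obtain ⟨c', hc', hext⟩ := hExt k B A i2 hi2inj hBfg hAfg'
    (∏ o, (⟨(lK o f).coeff (lK o f).order, hzA o⟩ : A))
    (Finset.prod_ne_zero_iff.2 fun o _ h => hz0 o (congrArg Subtype.val h))
  refine ⟨y₀, hy₀, nb, b, hb, c', hc', fun i => (lK (some i) f).order, fun y hy hyc => ?_⟩
  obtain ⟨y2, hy2⟩ : ∃ y2 : B →ₐ[k] k, ∀ x, y2 x = y x := by
    refine ⟨{ y with commutes' := fun c => ?_ }, fun x => rfl⟩
    change y (algebraMap k B c) = c
    rw [halg]
    exact hy c
  obtain ⟨t, ht, htz⟩ := hext y2 (by rwa [hy2])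
  obtain ⟨fy, ay, hBC, hco⟩ := hSpec k r B A i' t y₀ y hy₀ hy
    (fun b => by rw [← hi2, ht, hy2]) (Fin nb) b m f' a' hcert'
  have hmain : ∀ o, L o fy ≠ 0 ∧ (L o fy).order = (lK o f).order := by
    intro o
    obtain ⟨lA, hlA, -⟩ := (hLau k B (L o) (hLK o)).1 A
    have hnat := (hLau k B (L o) (hLK o)).2 A (Kf k) A.val lA (lK o) hlA (hlK o) f'
    rw [hf'] at hnat
    refine APC_order _ _ ?_ ?_
    · rw [hco (L o) lA (hLK o) hlA]
      have h1 : (lA f').coeff (lK o f).order =
          (⟨(lK o f).coeff (lK o f).order, hzA o⟩ : A) := by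
        apply Subtype.ext
        exact (hnat (lK o f).order).symm
      rw [h1]
      intro h2
      apply htz
      rw [map_prod]
      exact Finset.prod_eq_zero (Finset.mem_univ o) h2
    · intro m' hm'
      rw [hco (L o) lA (hLK o) hlA]
      have h1 : (lA f').coeff m' = 0 := by
        apply Subtype.ext
        have h2 := hnat m'
        rw [HahnSeries.coeff_eq_zero_of_lt_order hm'] at h2
        exact h2.symm
      rw [h1, map_zero]
  refine ⟨fy, m, ay, ?_, hBC, fun i => ?_⟩
  · intro h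
    exact (hmain none).1 (by rw [h, map_zero])
  · have h1 := (hmain (some i)).2
    rwa [hLs] at h1

theorem prf_APC (hCpl : APCpl) (hOrd : APOrd) (hPt : APPt) (hGen : APGen) (hK : APK)
    (hSpr : APSpr) (hExt : APExt) (hLau : APLau) (hSpec : APSpec) (hVal : APVal) : APC := by
  intro k _ _ r hr G _ _ B _ _ _ _ hG n l hl hli
  let _ : Algebra k B := Algebra.compHom B (C : k →+* k[X])
  have : IsScalarTower k k[X] B := IsScalarTower.of_algebraMap_eq fun _ => rfl
  obtain ⟨y₀, hy₀, nb, b, hb, c, hc, N, hmain⟩ :=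
    APC_main hCpl hOrd hPt hGen hK hSpr hExt hLau hSpec k r hr G B hG n l hl hli
  refine ⟨c, hc, fun y y' hy hy' hyc hyc' => ?_⟩
  obtain ⟨f, m, a, hf, hcf, hN⟩ := hmain y hy hyc
  obtain ⟨f', m', a', hf', hcf', hN'⟩ := hmain y' hy' hyc'
  have hr1 : 1 ≤ r := Nat.one_le_iff_ne_zero.2 (fun h => hr (by rw [h]; simp))
  have hord : ∀ j : B →+* LaurentSeries k, Function.Injective j →
      (j (f * f' ^ (r - 1))).order = (j f).order + ((r : ℤ) - 1) * (j f').order := by
    intro j hj
    have h1 : j f ≠ 0 := fun h => hf (hj (by rw [h, map_zero]))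
    have h2 : j f' ≠ 0 := fun h => hf' (hj (by rw [h, map_zero]))
    rw [map_mul, map_pow, HahnSeries.order_mul h1 (pow_ne_zero _ h2), HahnSeries.order_pow]
    rw [nsmul_eq_mul]
    push_cast [Nat.cast_sub hr1]
    ring
  refine ⟨f * f' ^ (r - 1), mul_ne_zero hf (pow_ne_zero _ hf'), fun i => ?_, fun a0 j hj => ?_⟩
  · rw [hord (l i) (hli i), hN, hN']
    exact ⟨N i, by ring⟩
  · have hinj := (hOrd k G B hG a0 j hj).2.2 inferInstance
    have h1 := hVal k r G B hG y₀ y hy₀ hy (Fin nb) b hb m f a hf hcf a0 j hj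
    have h2 := hVal k r G B hG y₀ y' hy₀ hy' (Fin nb) b hb m' f' a' hf' hcf' a0 j hj
    rw [hord j hinj]
    obtain ⟨s, hs⟩ := h1
    obtain ⟨s', hs'⟩ := h2
    refine ⟨s - s' + (j f').order, ?_⟩
    linear_combination hs - hs'

end MP7b0bad
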