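import Pool.Agent.Work.MP_7b0bad_ag.AP.Stmts
import Mathlib

set_option autoImplicit false

/-!
# Item APExt of part AP: extension of points

For finitely generated domains `B ⊆ A` over an algebraically closed field `k` and `z ≠ 0` in `A`
there is `c ≠ 0` in `B` such that every point of `B` with `c ≠ 0` extends to a point of `A` with
`z ≠ 0`. The proof uses the theorem of Chevalley for `B → A[1/z]` and the Nullstellensatz.
-/

namespace MP7b0bad

theorem APExt_main (k : Type) [Field k] [IsAlgClosed k] (B A : Type) [CommRing B] [IsDomain B]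
    [Algebra k B] [CommRing A] [IsDomain A] [Algebra k A] (i : B →ₐ[k] A)
    (hi : Function.Injective i) (hB : (⊤ : Subalgebra k B).FG) (hA : (⊤ : Subalgebra k A).FG)
    (z : A) (hz : z ≠ 0) :
    ∃ c : B, c ≠ 0 ∧ ∀ y : B →ₐ[k] k, y c ≠ 0 →
      ∃ t : A →ₐ[k] k, (∀ b, t (i b) = y b) ∧ t z ≠ 0 := by
  have : Algebra.FiniteType k B := ⟨hB⟩
  have : Algebra.FiniteType k A := ⟨hA⟩
  have : IsNoetherianRing B := Algebra.FiniteType.isNoetherianRing k B
  have hz' : Submonoid.powers z ≤ nonZeroDivisors A := powers_le_nonZeroDivisors_of_noZeroDivisors hz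
  have : IsDomain (Localization.Away z) := IsLocalization.isDomain_localization hz'
  have : Algebra.FiniteType A (Localization.Away z) :=
    IsLocalization.finiteType_of_monoid_fg (Submonoid.powers z) _
  have : Algebra.FiniteType k (Localization.Away z) :=
    Algebra.FiniteType.trans (S := A) inferInstance inferInstance
  set f : B →+* Localization.Away z := (algebraMap A (Localization.Away z)).comp i.toRingHom with hf
  have hfi : Function.Injective f := by
    rw [hf, RingHom.coe_comp]
    exact (IsLocalization.injective _ hz').comp hi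
  have hk : f.comp (algebraMap k B) = algebraMap k (Localization.Away z) := by
    ext x
    rw [hf, RingHom.comp_apply, RingHom.comp_apply]
    change algebraMap A (Localization.Away z) (i (algebraMap k B x)) = _
    rw [AlgHom.commutes, ← IsScalarTower.algebraMap_apply]
  have hft : f.FiniteType := by
    have h1 : (f.comp (algebraMap k B)).FiniteType := by
      rw [hk]
      exact RingHom.finiteType_algebraMap.2 inferInstance
    exact RingHom.FiniteType.of_comp_finiteType h1
  have hfp : f.FinitePresentation := RingHom.FinitePresentation.of_finiteType.1 hft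
  obtain ⟨T, hT⟩ := PrimeSpectrum.exists_constructibleSetData_iff.2 (PrimeSpectrum.isConstructible_range_comap hfp)
  have hbot : (⟨⊥, Ideal.isPrime_bot⟩ : PrimeSpectrum B) ∈ Set.range (PrimeSpectrum.comap f) := by
    refine ⟨⟨⊥, Ideal.isPrime_bot⟩, ?_⟩
    ext x
    simp [map_eq_zero_iff f hfi]
  rw [← hT] at hbot
  obtain ⟨C, hC, hb⟩ := Set.mem_iUnion₂.1 hbot
  have hg : ∀ j, C.g j = 0 := fun j => by
    have h := hb.1 (Set.mem_range_self j)
    simpa using h
  have hc : C.f ≠ 0 := fun h => hb.2 (by
    intro x hx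
    rw [Set.mem_singleton_iff] at hx
    simp [hx, h])
  refine ⟨C.f, hc, fun y hy => ?_⟩
  have hp : (⟨RingHom.ker y, RingHom.ker_isPrime y⟩ : PrimeSpectrum B) ∈ Set.range (PrimeSpectrum.comap f) := by
    rw [← hT]
    refine Set.mem_iUnion₂.2 ⟨C, hC, ?_, ?_⟩
    · rintro _ ⟨j, rfl⟩
      rw [hg j]
      exact Ideal.zero_mem _
    · intro h
      exact hy (h (Set.mem_singleton _))
  obtain ⟨q, hq⟩ := hp
  obtain ⟨n, hn, hqn⟩ := Ideal.exists_le_maximal q.asIdeal q.isPrime.ne_top
  let _ : Field (Localization.Away z ⧸ n) := Ideal.Quotient.field n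
  have : Algebra.FiniteType k (Localization.Away z ⧸ n) :=
    Algebra.FiniteType.of_surjective (Ideal.Quotient.mkₐ k n) (Ideal.Quotient.mkₐ_surjective k n)
  have : Module.Finite k (Localization.Away z ⧸ n) :=
    finite_of_finite_type_of_isJacobsonRing k _
  have : Algebra.IsAlgebraic k (Localization.Away z ⧸ n) := inferInstance
  let s : (Localization.Away z ⧸ n) →ₐ[k] k := IsAlgClosed.lift
  refine ⟨(s.comp (Ideal.Quotient.mkₐ k n)).comp (IsScalarTower.toAlgHom k A _), ?_, ?_⟩
  · intro b
    have h1 : b - algebraMap k B (y b) ∈ q.asIdeal.comap f := by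
      have h2 : q.asIdeal.comap f = RingHom.ker y := congrArg PrimeSpectrum.asIdeal hq
      rw [h2, RingHom.mem_ker, map_sub, AlgHom.commutes]
      simp
    have h3 : Ideal.Quotient.mkₐ k n (f (b - algebraMap k B (y b))) = 0 :=
      Ideal.Quotient.eq_zero_iff_mem.2 (hqn h1)
    have h4 : f (algebraMap k B (y b)) = algebraMap k _ (y b) := congrArg (fun g => g (y b)) hk
    rw [map_sub, map_sub, h4, AlgHom.commutes, sub_eq_zero] at h3
    change s (Ideal.Quotient.mkₐ k n (f b)) = y b
    rw [h3, AlgHom.commutes]
    rfl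
  · have h1 : IsUnit (algebraMap A (Localization.Away z) z) :=
      IsLocalization.Away.algebraMap_isUnit z
    exact ((h1.map (Ideal.Quotient.mkₐ k n)).map s).ne_zero

theorem prf_APExt : APExt := fun k _ _ B A _ _ _ _ _ _ i hi hB hA z hz =>
  APExt_main k B A i hi hB hA z hz

end MP7b0bad
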