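import Pool.Agent.Work.MP_7b0bad_ag.AP.Stmts

set_option autoImplicit false

/-!
# Project AP, item APGen: finite families of generators of the `k`-algebra `B`
-/

namespace MP7b0bad

open Polynomial

/-- the image of `k[X]` lies in every subalgebra that contains the image of `X` -/
theorem APGen_map_mem {k B : Type} [Field k] [CommRing B] [Algebra k[X] B] [Algebra k B]
    [IsScalarTower k k[X] B] (S : Subalgebra k B) (hX : algebraMap k[X] B X ∈ S) (p : k[X]) :
    algebraMap k[X] B p ∈ S := by
  induction p using Polynomial.induction_on' with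
  | add p q hp hq => rw [map_add]; exact S.add_mem hp hq
  | monomial n a =>
    rw [← C_mul_X_pow_eq_monomial, map_mul, map_pow]
    refine S.mul_mem ?_ (S.pow_mem hX n)
    have h : algebraMap k[X] B (C a) = algebraMap k B a := by
      rw [IsScalarTower.algebraMap_apply k k[X] B a, Polynomial.algebraMap_eq]
    rw [h]
    exact S.algebraMap_mem a

/-- finite families of generators -/
theorem prf_APGen : APGen := by
  intro k _ G _ _ B _ _ _ _ _ hG
  classical
  haveI : Fintype G := Fintype.ofFinite G
  obtain ⟨n, x, y, hxy⟩ := gal_dual hG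
  have hne : ∀ σ : G, σ ≠ 1 → ∑ m, x m * (σ • y m) = 0 := by
    intro σ hσ
    rw [hxy σ, if_neg hσ]
  have h1 : ∑ m, x m * y m = 1 := by
    have h := hxy 1
    simpa using h
  refine ⟨n + 1, Fin.cons (algebraMap k[X] B X) x, ⟨0, ?_⟩, ?_⟩
  · simp
  · rw [eq_top_iff]
    intro z _
    set S : Subalgebra k B :=
      Algebra.adjoin k (Set.range (Fin.cons (algebraMap k[X] B X) x : Fin (n + 1) → B)) with hS
    have hX : algebraMap k[X] B X ∈ S := by
      have h : (Fin.cons (algebraMap k[X] B X) x : Fin (n + 1) → B) 0 ∈ S :=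
        Algebra.subset_adjoin ⟨0, rfl⟩
      simpa using h
    have hx : ∀ m, x m ∈ S := by
      intro m
      have h : (Fin.cons (algebraMap k[X] B X) x : Fin (n + 1) → B) m.succ ∈ S :=
        Algebra.subset_adjoin ⟨m.succ, rfl⟩
      simpa using h
    rw [gal_formula hne h1 z]
    refine S.sum_mem fun m _ => S.mul_mem ?_ (hx m)
    obtain ⟨a, ha⟩ := gal_trace hG (y m * z)
    rw [← ha]
    exact APGen_map_mem S hX a

end MP7b0bad
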