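import Pool.Agent.Work.MP_7b0bad_ag.AP.Stmts

set_option autoImplicit false

namespace MP7b0bad

open Polynomial TensorProduct

theorem APGn_C_coeff (k : Type) [Field k] (β : LaurentSeries k) (m n : ℤ) :
    ((HahnSeries.C β : Fk k).coeff m).coeff n = if m = 0 then β.coeff n else 0 := by
  rw [HahnSeries.C_apply, HahnSeries.coeff_single]
  split_ifs <;> simp

theorem APGn_KF_coeff (k : Type) [Field k] (β : LaurentSeries k) (m n : ℤ) :
    ((KF k β).coeff m).coeff n = if n = 0 then β.coeff m else 0 := by
  change ((β.map (HahnSeries.C : k →+* LaurentSeries k)).coeff m).coeff n = _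
  rw [HahnSeries.map_coeff]
  rw [HahnSeries.C_apply, HahnSeries.coeff_single]
  split_ifs <;> rfl

theorem APGn_C_mem (k : Type) [Field k] (β : LaurentSeries k) (h : ∀ n : ℤ, n < 0 → β.coeff n = 0) :
    (HahnSeries.C β : Fk k) ∈ Rr k := by
  intro m n hn
  rw [APGn_C_coeff, h n hn]
  simp

theorem APGn_KF_mem (k : Type) [Field k] (β : LaurentSeries k) : KF k β ∈ Rr k := by
  intro m n hn
  rw [APGn_KF_coeff, if_neg (by omega)]

theorem APGn_Ww_mul (k : Type) [Field k] (Q : Fk k) (m n : ℤ) :
    ((Ww k * Q).coeff m).coeff n = (Q.coeff m).coeff (n - 1) := by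
  have h1 : (Ww k * Q).coeff m = HahnSeries.single (1 : ℤ) (1 : k) * Q.coeff m := by
    unfold Ww
    rw [HahnSeries.C_apply]
    have := HahnSeries.coeff_single_mul_add (r := (HahnSeries.single (1 : ℤ) (1 : k)))
      (x := Q) (a := m) (b := (0 : ℤ))
    simpa only [add_zero] using this
  rw [h1]
  have := HahnSeries.coeff_single_mul_add (r := (1 : k)) (x := Q.coeff m) (a := n - 1) (b := (1 : ℤ))
  simpa using this

theorem APGn_Tt_mul (k : Type) [Field k] (Q : Fk k) (m n : ℤ) :
    ((Tt k * Q).coeff m).coeff n = (Q.coeff (m - 1)).coeff n := by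
  have h1 : (Tt k * Q).coeff m = Q.coeff (m - 1) := by
    unfold Tt
    have := HahnSeries.coeff_single_mul_add (r := (1 : LaurentSeries k))
      (x := Q) (a := m - 1) (b := (1 : ℤ))
    simpa using this
  rw [h1]

theorem APGn_div (k : Type) [Field k] (β : LaurentSeries k) (h : ∀ n : ℤ, n < 0 → β.coeff n = 0) :
    ∃ Q ∈ Rr k, HahnSeries.C β - KF k β = (Ww k - Tt k) * Q := by
  obtain ⟨e, he1, he2, -⟩ := prf_A1a k
  let f : PowerSeries (PowerSeries k) :=
    PowerSeries.mk fun i => PowerSeries.mk fun j => β.coeff ((i : ℤ) + (j : ℤ) + 1)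
  have hQ : ∀ m n : ℤ, ((e f).coeff m).coeff n = if 0 ≤ m ∧ 0 ≤ n then β.coeff (m + n + 1) else 0 := by
    intro m n
    split_ifs with h1
    · obtain ⟨m', rfl⟩ := Int.eq_ofNat_of_zero_le h1.1
      obtain ⟨n', rfl⟩ := Int.eq_ofNat_of_zero_le h1.2
      rw [he1]
      simp only [f, PowerSeries.coeff_mk]
      congr 1
      omega
    · exact he2 f m n (by omega)
  refine ⟨e f, fun m n hn => he2 f m n (Or.inr hn), ?_⟩
  ext m n
  rw [sub_mul, HahnSeries.coeff_sub, HahnSeries.coeff_sub, HahnSeries.coeff_sub,
    HahnSeries.coeff_sub, APGn_C_coeff, APGn_KF_coeff, APGn_Ww_mul, APGn_Tt_mul, hQ, hQ]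
  rcases lt_trichotomy m 0 with hm | hm | hm
  · rw [if_neg (show ¬ m = 0 by omega), if_neg (show ¬ (0 ≤ m ∧ 0 ≤ n - 1) by omega),
      if_neg (show ¬ (0 ≤ m - 1 ∧ 0 ≤ n) by omega), h m hm, ite_self]
  · subst hm
    rcases lt_trichotomy n 0 with hn | hn | hn
    · rw [if_pos rfl, if_neg (by omega), if_neg (by omega), if_neg (by omega), h n hn]
    · subst hn
      simp
    · rw [if_pos rfl, if_neg (by omega), if_pos (by omega), if_neg (by omega)]
      congr 2
      omega
  · rcases lt_trichotomy n 0 with hn | hn | hn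
    · rw [if_neg (by omega), if_neg (by omega), if_neg (by omega), if_neg (by omega)]
    · subst hn
      rw [if_neg (by omega), if_pos rfl, if_neg (by omega), if_pos (by omega)]
      congr 2
      omega
    · rw [if_neg (by omega), if_neg (by omega), if_pos (by omega), if_pos (by omega)]
      have h1 : m + (n - 1) + 1 = m - 1 + n + 1 := by omega
      rw [h1]
      simp

theorem APGn_w (k : Type) [Field k] (β : LaurentSeries k) (h : ∀ n : ℤ, n ≤ 0 → β.coeff n = 0) :
    ∃ Q ∈ Rr k, (HahnSeries.C β : Fk k) = Ww k * Q := by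
  refine ⟨HahnSeries.C (HahnSeries.single (-1 : ℤ) (1 : k) * β), ?_, ?_⟩
  · refine APGn_C_mem k _ fun n hn => ?_
    have := HahnSeries.coeff_single_mul_add (r := (1 : k)) (x := β) (a := n + 1) (b := (-1 : ℤ))
    rw [show n + 1 + -1 = n by omega] at this
    rw [this, h (n + 1) (by omega)]
    simp
  · unfold Ww
    rw [← map_mul, ← mul_assoc, HahnSeries.single_mul_single]
    simp

theorem APGn_inv (k : Type) [Field k] (v : Fk k)
    (hv : ∀ j i : ℤ, (j < 0 ∨ i < 0) → (v.coeff j).coeff i = 0) (h0 : (v.coeff 0).coeff 0 ≠ 0) :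
    ∃ v' ∈ Rr k, v' * v = 1 := by
  obtain ⟨e, he1, he2, he3⟩ := prf_A1a k
  obtain ⟨f, hf⟩ := he3 v hv
  have h1 : PowerSeries.coeff 0 (PowerSeries.coeff 0 f) ≠ 0 := by
    have := he1 f 0 0
    rw [hf] at this
    rw [← this]
    exact h0
  have h2 : IsUnit f := by
    rw [PowerSeries.isUnit_iff_constantCoeff, PowerSeries.isUnit_iff_constantCoeff]
    rw [PowerSeries.coeff_zero_eq_constantCoeff_apply,
      PowerSeries.coeff_zero_eq_constantCoeff_apply] at h1
    exact isUnit_iff_ne_zero.2 h1
  obtain ⟨f', hf'⟩ := h2.exists_left_inv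
  refine ⟨e f', fun j i hi => he2 f' j i (Or.inr hi), ?_⟩
  rw [← hf, ← map_mul, hf', map_one]

theorem prf_APGn : APGn := by
  intro k _ G _ _ B _ _ _ _ _ hG a j hj hj0 y hy hjy ι _ b hb X1 X2 hX1 hX2
  classical
  have halg : ∀ (g : G) (c : k), g • algebraMap k B c = algebraMap k B c := by
    intro g c
    rw [IsScalarTower.algebraMap_apply k k[X] B, hG.comm]
  have hyk : ∀ c : k, y (algebraMap k B c) = c := by
    intro c
    rw [IsScalarTower.algebraMap_apply k k[X] B]
    exact hy c
  have hjk : ∀ c : k, j (algebraMap k B c) = HahnSeries.C c := by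
    intro c
    rw [IsScalarTower.algebraMap_apply k k[X] B]
    exact hj.1 c
  obtain ⟨⟨u0, hu0⟩, hadj⟩ := hb
  have hya : y (b u0) = a := by
    rw [← hjy, hu0, hj.2, HahnSeries.coeff_add, HahnSeries.C_apply, HahnSeries.coeff_single,
      HahnSeries.coeff_single]
    simp
  -- the points `y` and `y ∘ g⁻¹` are different
  have hne : ∀ g : G, g ≠ 1 → ∃ u, y (g⁻¹ • b u) ≠ y (b u) := by
    intro g hg
    by_contra hcon
    push Not at hcon
    have h1 : ∀ c : B, y (g⁻¹ • c) = y c := by
      intro c
      have hc : c ∈ Algebra.adjoin k (Set.range b) := by rw [hadj]; trivial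
      induction hc using Algebra.adjoin_induction with
      | mem x hx =>
        obtain ⟨u, rfl⟩ := hx
        exact hcon u
      | algebraMap r => rw [halg]
      | add x z _ _ hx hz => rw [smul_add, map_add, map_add, hx, hz]
      | mul x z _ _ hx hz => rw [smul_mul', map_mul, map_mul, hx, hz]
    have h2 := hG.unr g⁻¹ (fun h => hg (inv_eq_one.1 h))
    have h3 : Ideal.span {x : B | ∃ c : B, x = c - g⁻¹ • c} ≤ RingHom.ker y := by
      rw [Ideal.span_le]
      rintro x ⟨c, rfl⟩
      change y (c - g⁻¹ • c) = 0
      rw [map_sub, h1, sub_self]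
    rw [h2] at h3
    have h4 : (1 : B) ∈ RingHom.ker y := h3 trivial
    rw [RingHom.mem_ker, map_one] at h4
    exact one_ne_zero h4
  have hX1' : ∀ u g, X1 u g = HahnSeries.C (j (g⁻¹ • b u) - HahnSeries.C (y (b u))) := by
    intro u g
    rw [hX1, smul_sub, halg, map_sub, hjk]
  have hX1R : ∀ u g, X1 u g ∈ Rr k := by
    intro u g
    rw [hX1]
    exact APGn_C_mem k _ (hj0 _)
  have hX2R : ∀ u g, X2 u g ∈ Rr k := by
    intro u g
    rw [hX2]
    exact (Rr k).sub_mem (APGn_C_mem k _ (hj0 _)) (APGn_KF_mem k _)
  have hinv1 : ∀ g : G, g ≠ 1 → ∃ u, ∃ v' ∈ Rr k, v' * X1 u g = 1 := by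
    intro g hg
    obtain ⟨u, hu⟩ := hne g hg
    refine ⟨u, APGn_inv k _ ?_ ?_⟩
    · intro m n hmn
      rw [hX1, APGn_C_coeff]
      split_ifs with h
      · exact hj0 _ n (by omega)
      · rfl
    · rw [hX1, APGn_C_coeff, if_pos rfl, hjy, smul_sub, halg, map_sub, hyk]
      exact sub_ne_zero.2 hu
  have hinv2 : ∀ g : G, g ≠ 1 → ∃ u, ∃ v' ∈ Rr k, v' * X2 u g = 1 := by
    intro g hg
    obtain ⟨u, hu⟩ := hne g hg
    refine ⟨u, APGn_inv k _ ?_ ?_⟩
    · intro m n hmn
      rw [hX2, HahnSeries.coeff_sub, HahnSeries.coeff_sub, APGn_C_coeff, APGn_KF_coeff]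
      rcases hmn with h | h
      · rw [if_neg (by omega), hj0 _ m h]
        simp
      · rw [hj0 _ n h, if_neg (show ¬ n = 0 by omega), ite_self, sub_zero]
    · rw [hX2, HahnSeries.coeff_sub, HahnSeries.coeff_sub, APGn_C_coeff, APGn_KF_coeff,
        if_pos rfl, if_pos rfl, hjy, hjy]
      exact sub_ne_zero.2 hu
  refine ⟨?_, ?_, ?_, ?_⟩
  · intro u
    have h1 : ∃ Q ∈ Rr k, X1 u 1 = Ww k * Q := by
      rw [hX1]
      refine APGn_w k _ fun n hn => ?_
      rcases hn.lt_or_eq with h | h
      · exact hj0 _ n h
      · subst h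
        rw [hjy, inv_one, one_smul, map_sub, hyk, sub_self]
    obtain ⟨Q, hQ, hQ1⟩ := h1
    refine ⟨fun g => if g = 1 then Q else X1 u g, ?_, ?_⟩
    · intro g
      change (if g = 1 then Q else X1 u g) ∈ Rr k
      split_ifs
      · exact hQ
      · exact hX1R u g
    · funext g
      change X1 u g = (if g = 1 then Ww k else 1) * (if g = 1 then Q else X1 u g)
      by_cases h : g = 1
      · subst h
        rw [if_pos rfl, if_pos rfl, hQ1]
      · rw [if_neg h, if_neg h, one_mul]
  · have hch : ∀ g : G, ∃ z : ι → Fk k, (∀ u, z u ∈ Rr k) ∧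
        ∑ u, z u * X1 u g = if g = 1 then Ww k else 1 := by
      intro g
      by_cases hg : g = 1
      · refine ⟨fun u => if u = u0 then 1 else 0, ?_, ?_⟩
        · intro u
          change (if u = u0 then (1 : Fk k) else 0) ∈ Rr k
          split_ifs
          · exact (Rr k).one_mem
          · exact (Rr k).zero_mem
        · rw [if_pos hg]
          have h5 : ∀ u, (if u = u0 then (1 : Fk k) else 0) * X1 u g
              = if u = u0 then X1 u0 g else 0 := by
            intro u
            by_cases hu : u = u0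
            · subst hu; simp
            · simp [hu]
          simp only [h5]
          rw [Finset.sum_ite_eq' Finset.univ u0 (fun _ => X1 u0 g)]
          simp only [Finset.mem_univ, if_true]
          rw [hX1', hg, inv_one, one_smul, hya, hu0, hj.2]
          unfold Ww
          congr 1
          ring
      · obtain ⟨u1, v', hv', h1⟩ := hinv1 g hg
        refine ⟨fun u => if u = u1 then v' else 0, ?_, ?_⟩
        · intro u
          change (if u = u1 then v' else 0) ∈ Rr k
          split_ifs
          · exact hv'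
          · exact (Rr k).zero_mem
        · rw [if_neg hg]
          have h5 : ∀ u, (if u = u1 then v' else 0) * X1 u g
              = if u = u1 then v' * X1 u1 g else 0 := by
            intro u
            by_cases hu : u = u1
            · subst hu; simp
            · simp [hu]
          simp only [h5]
          rw [Finset.sum_ite_eq' Finset.univ u1 (fun _ => v' * X1 u1 g)]
          simp only [Finset.mem_univ, if_true]
          exact h1
    choose z hz1 hz2 using hch
    refine ⟨fun u g => z g u, fun u g => hz1 g u, ?_⟩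
    funext g
    rw [Finset.sum_apply]
    exact hz2 g
  · intro u
    obtain ⟨Q, hQ, hQ1⟩ := APGn_div k (j (b u)) (hj0 (b u))
    have h1 : X2 u 1 = (Ww k - Tt k) * Q := by
      rw [hX2, inv_one, one_smul, hQ1]
    refine ⟨fun g => if g = 1 then Q else X2 u g, ?_, ?_⟩
    · intro g
      change (if g = 1 then Q else X2 u g) ∈ Rr k
      split_ifs
      · exact hQ
      · exact hX2R u g
    · funext g
      change X2 u g = (if g = 1 then Ww k - Tt k else 1) * (if g = 1 then Q else X2 u g)
      by_cases h : g = 1
      · subst h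
        rw [if_pos rfl, if_pos rfl, h1]
      · rw [if_neg h, if_neg h, one_mul]
  · have hch : ∀ g : G, ∃ z : ι → Fk k, (∀ u, z u ∈ Rr k) ∧
        ∑ u, z u * X2 u g = if g = 1 then Ww k - Tt k else 1 := by
      intro g
      by_cases hg : g = 1
      · refine ⟨fun u => if u = u0 then 1 else 0, ?_, ?_⟩
        · intro u
          change (if u = u0 then (1 : Fk k) else 0) ∈ Rr k
          split_ifs
          · exact (Rr k).one_mem
          · exact (Rr k).zero_mem
        · rw [if_pos hg]
          have h5 : ∀ u, (if u = u0 then (1 : Fk k) else 0) * X2 u g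
              = if u = u0 then X2 u0 g else 0 := by
            intro u
            by_cases hu : u = u0
            · subst hu; simp
            · simp [hu]
          simp only [h5]
          rw [Finset.sum_ite_eq' Finset.univ u0 (fun _ => X2 u0 g)]
          simp only [Finset.mem_univ, if_true]
          rw [hX2, hg, inv_one, one_smul, hu0, hj.2]
          ext m n
          rw [HahnSeries.coeff_sub, HahnSeries.coeff_sub, APGn_C_coeff, APGn_KF_coeff]
          unfold Ww Tt
          rw [HahnSeries.coeff_sub, HahnSeries.coeff_sub, APGn_C_coeff, HahnSeries.coeff_single,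
            HahnSeries.coeff_add, HahnSeries.coeff_add, HahnSeries.C_apply,
            HahnSeries.coeff_single, HahnSeries.coeff_single, HahnSeries.coeff_single]
          have h6 : ((HahnSeries.single (1 : ℤ) (1 : LaurentSeries k) : Fk k).coeff m).coeff n
              = if m = 1 then (if n = 0 then (1 : k) else 0) else 0 := by
            rw [HahnSeries.coeff_single]
            split_ifs with h7 h8
            · rw [HahnSeries.coeff_one, if_pos h8]
            · rw [HahnSeries.coeff_one, if_neg h8]
            · simp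
          rw [h6]
          by_cases hm0 : m = 0 <;> by_cases hn0 : n = 0 <;> by_cases hm1 : m = 1 <;>
            by_cases hn1 : n = 1 <;>
            first
              | (exfalso; omega)
              | simp [hm0, hn0, hm1, hn1]
      · obtain ⟨u1, v', hv', h1⟩ := hinv2 g hg
        refine ⟨fun u => if u = u1 then v' else 0, ?_, ?_⟩
        · intro u
          change (if u = u1 then v' else 0) ∈ Rr k
          split_ifs
          · exact hv'
          · exact (Rr k).zero_mem
        · rw [if_neg hg]
          have h5 : ∀ u, (if u = u1 then v' else 0) * X2 u g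
              = if u = u1 then v' * X2 u1 g else 0 := by
            intro u
            by_cases hu : u = u1
            · subst hu; simp
            · simp [hu]
          simp only [h5]
          rw [Finset.sum_ite_eq' Finset.univ u1 (fun _ => v' * X2 u1 g)]
          simp only [Finset.mem_univ, if_true]
          exact h1
    choose z hz1 hz2 using hch
    refine ⟨fun u g => z g u, fun u g => hz1 g u, ?_⟩
    funext g
    rw [Finset.sum_apply]
    exact hz2 g

end MP7b0bad
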