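import Pool.Agent.Work.MP_7b0bad_ag.AP.Stmts

set_option autoImplicit false

/-!
Item APInt of project AP: `M_S ∩ M_R` is the image of `K ⊗ B`.
-/

namespace MP7b0bad

open Polynomial TensorProduct

theorem APInt_jj (k : Type) [Field k] (p : (LaurentSeries k)[X]) :
    jj k p = ∑ i ∈ p.support, KF k (p.coeff i) * Ww k ^ i := by
  unfold jj
  rw [coe_eval₂RingHom, eval₂_eq_sum, Polynomial.sum]

theorem APInt_wat {k : Type} [Field k] {G : Type} [Group G] {B : Type} [CommRing B]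
    [Algebra k[X] B] [MulSemiringAction G B] (hG : GalAlg k[X] G B) (a : k)
    (j : B →+* LaurentSeries k) (hj : Cpl a j) (g : G) :
    HahnSeries.C (j (g⁻¹ • algebraMap k[X] B (X - C a))) = Ww k := by
  rw [hG.comm, map_sub, map_sub, hj.2, hj.1 a, Ww]
  congr 1
  abel

theorem prf_APInt (hB : APBas) (hA8 : A8) : APInt := by
  intro k _ G _ _ B _ _ _ _ _ hG a j hj hneg th hth v hvS hvR
  obtain ⟨n, β, h1, h2, h3⟩ := hB k G B hG a j hj hneg
  obtain ⟨c, hc, hcv⟩ := h3 v hvS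
  obtain ⟨c', hc', hcv'⟩ := h2 v hvR
  have hcc : c = c' := (h1 v).unique hcv hcv'
  have hp : ∀ l, ∃ f : (LaurentSeries k)[X], jj k f = c l := fun l =>
    (hA8 k).2.2 (c l) (by rw [hcc]; exact hc' l) (hc l)
  choose p hp using hp
  refine ⟨∑ l, ∑ i ∈ (p l).support, ((kfl k).symm ((p l).coeff i)) ⊗ₜ[k]
    ((algebraMap k[X] B (X - C a)) ^ i * β l), ?_⟩
  funext g
  rw [hcv g, map_sum, Finset.sum_apply]
  refine Finset.sum_congr rfl fun l _ => ?_
  rw [map_sum, Finset.sum_apply, ← hp l, APInt_jj, Finset.sum_mul]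
  refine Finset.sum_congr rfl fun i _ => ?_
  rw [hth, RingEquiv.apply_symm_apply, smul_mul', smul_pow', map_mul, map_mul, map_pow, map_pow,
    APInt_wat hG a j hj g, mul_assoc]

end MP7b0bad
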