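import Pool.Agent.Work.MP_7b0bad_ag.AP.Stmts

set_option autoImplicit false

/-!
# Item APK: the certificate over `K = k((T))`
-/

namespace MP7b0bad

open Polynomial TensorProduct

theorem APK_KF_C {k : Type} [Field k] (c : k) :
    KF k (HahnSeries.C c) = HahnSeries.C (HahnSeries.C c) := by
  ext m n
  change ((HahnSeries.map (HahnSeries.C c) (HahnSeries.C : k →+* LaurentSeries k)).coeff m).coeff n =
    _
  by_cases hm : m = 0
  · subst hm
    simp
  · simp [hm]

theorem APK_KF_single (k : Type) [Field k] :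
    KF k (HahnSeries.single (1 : ℤ) (1 : k)) = Tt k := by
  have h1 : ∀ m : ℤ, (KF k (HahnSeries.single (1 : ℤ) (1 : k))).coeff m =
      HahnSeries.C ((HahnSeries.single (1 : ℤ) (1 : k)).coeff m) := fun m => rfl
  refine HahnSeries.ext ?_
  funext m
  rw [h1, Tt]
  by_cases hm : m = 1
  · subst hm
    simp
  · rw [HahnSeries.coeff_single_of_ne hm, HahnSeries.coeff_single_of_ne hm, map_zero]

theorem APK_Ww_ne (k : Type) [Field k] : Ww k ≠ 0 := by
  intro h
  have h1 : ((Ww k).coeff 0).coeff 1 = 0 := by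
    rw [h]
    simp
  rw [Ww] at h1
  simp at h1

theorem APK_Ww_mem (k : Type) [Field k] : Ww k ∈ Rr k := by
  intro j i hi
  rw [Ww, HahnSeries.C_apply, HahnSeries.coeff_single]
  split_ifs
  · rw [HahnSeries.coeff_single_of_ne (by omega)]
  · simp

section MR

variable {k : Type} [Field k] {G : Type}

theorem APK_MR_mul {u v : G → Fk k} (hu : MRp u) (hv : MRp v) : MRp (u * v) :=
  fun g => (Rr k).mul_mem (hu g) (hv g)

theorem APK_MR_const {s : Fk k} (hs : s ∈ Rr k) : MRp (G := G) (fun _ => s) := fun _ => hs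

theorem APK_MR_one : MRp (1 : G → Fk k) := fun _ => (Rr k).one_mem

theorem APK_MR_prod {ι : Type} (s : Finset ι) (u : ι → G → Fk k) (h : ∀ i, MRp (u i)) :
    MRp (∏ i ∈ s, u i) := by
  intro g
  rw [Finset.prod_apply]
  exact (Rr k).prod_mem fun i _ => h i g

theorem APK_MR_pow {u : G → Fk k} (hu : MRp u) (r : ℕ) : MRp (u ^ r) :=
  fun g => (Rr k).pow_mem (hu g) r

theorem APK_dl_mul [Group G] (z z' : Fk k) : (dl z : G → Fk k) * dl z' = dl (z * z') := by
  funext g
  simp only [Pi.mul_apply, dl]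
  split_ifs
  · rfl
  · rw [one_mul]

theorem APK_dl_one [Group G] : (dl (1 : Fk k) : G → Fk k) = 1 := by
  funext g
  simp [dl]

/-- `w (e dl(h'))^r dl(w - T) = w e^r dl(w)` -/
theorem APK_key [Group G] (r : ℕ) (h h' w T : Fk k) (hh : h * h' = 1)
    (hr : h ^ r * w = w - T) (e : G → Fk k) :
    (fun _ => w) * (e * dl h') ^ r * dl (w - T) = (fun _ => w) * e ^ r * dl w := by
  funext g
  simp only [Pi.mul_apply, Pi.pow_apply, dl]
  split_ifs with hg
  · rw [← hr]
    have h1 : h' ^ r * h ^ r = 1 := by rw [← mul_pow, mul_comm h' h, hh, one_pow]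
    calc w * (e g * h') ^ r * (h ^ r * w) = w * e g ^ r * w * (h' ^ r * h ^ r) := by ring
      _ = w * e g ^ r * w := by rw [h1, mul_one]
  · ring

/-- expansion of `(Σ ρ_i e e'_i)^r` -/
theorem APK_expand (r n : ℕ) (e v : G → Fk k) (ρ : Fin n → Fk k) (e' : Fin n → G → Fk k)
    (hv : ∀ g, v g = ∑ i, ρ i * e' i g) :
    (e * v) ^ r = ∑ α : Fin r → Fin n,
      (fun _ => ∏ t, ρ (α t)) * ∏ t, (e * e' (α t)) := by
  funext g
  simp only [Pi.mul_apply, Pi.pow_apply, Finset.sum_apply, Finset.prod_apply]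
  have h1 : (e g * v g) ^ r = ∏ _t : Fin r, ∑ i : Fin n, ρ i * (e g * e' i g) := by
    rw [Finset.prod_const, Finset.card_univ, Fintype.card_fin, hv g, Finset.mul_sum]
    congr 1
    refine Finset.sum_congr rfl fun i _ => ?_
    ring
  rw [h1, Finset.prod_univ_sum]
  rw [Fintype.piFinset_univ]
  refine Finset.sum_congr rfl fun α _ => ?_
  rw [Finset.prod_mul_distrib]

end MR

theorem prf_APK (hRoot : APRoot) (hUnit : APUnit) (hTh : APTh) (hMS : APMS) (hLat : APLat)
    (hInt : APInt) (hLD : APLD) (hGn : APGn) : APK := by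
  intro k _ r hr G _ _ B _ _ _ _ _ hG a j hj hinj hpow y hy hy0 ι _ b hb
  classical
  obtain ⟨th, hth, hthi⟩ := hTh k G B hG j hj.1 hinj
  obtain ⟨h, h', hhS, hh'S, hhh, hhr⟩ := hRoot k r hr
  obtain ⟨hwS, ⟨w1, hw1S, hw1⟩, ⟨w2, hw2S, hw2⟩⟩ := hUnit k
  obtain ⟨hMa, hMc, hMt⟩ := hMS k G B j th hth
  have hMmul : ∀ u v : G → Fk k, MSp j u → MSp j v → MSp j (u * v) :=
    fun u v hu hv => (hMa u v hu hv).2
  have hMone : MSp (G := G) j 1 := hMc 1 (Ss k).one_mem
  have hMpow : ∀ (u : G → Fk k), MSp j u → ∀ n : ℕ, MSp j (u ^ n) := by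
    intro u hu n
    induction n with
    | zero => rw [pow_zero]; exact hMone
    | succ n ih => rw [pow_succ]; exact hMmul _ _ ih hu
  have hMprod : ∀ (n : ℕ) (u : Fin n → G → Fk k), (∀ i, MSp j (u i)) → MSp j (∏ i, u i) := by
    intro n u hu
    refine Finset.prod_induction u (fun v => MSp j v) (fun u v hu hv => hMmul u v hu hv) hMone
      fun i _ => hu i
  obtain ⟨m, e, heS, heR, heSs, -⟩ := hLat k G B hG a j hj hpow h h' hhh
  obtain ⟨n, e', he'S, he'R, he'Ss, he'Rs⟩ := hLat k G B hG a j hj hpow h' h (by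
    rw [mul_comm]; exact hhh)
  -- a nonzero `e`
  obtain ⟨i0, hi0⟩ : ∃ i, e i ≠ 0 := by
    by_contra hcon
    push Not at hcon
    obtain ⟨s, -, hs⟩ := heSs 1 hMone
    have h1 := hs 1
    rw [Finset.sum_eq_zero (fun i _ => by rw [hcon i, Pi.zero_apply, mul_zero])] at h1
    exact one_ne_zero h1
  set E : G → Fk k := e i0 with hE
  have hES : MSp j E := heS i0
  have hER : MRp (dl h' * E) := heR i0
  have hdd : (dl h' : G → Fk k) * dl h = 1 := by
    rw [APK_dl_mul, mul_comm h' h, hhh, APK_dl_one]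
  have hdd' : (dl h : G → Fk k) * dl h' = 1 := by
    rw [APK_dl_mul, hhh, APK_dl_one]
  -- `f`
  have hfS : MSp j (E ^ r * fun _ => Ww k) := hMmul _ _ (hMpow E hES r) (hMc _ hwS)
  have hfR : MRp (E ^ r * fun _ => Ww k) := by
    -- `E = dl h * (dl h' * E)`
    have h1 : E ^ r * (fun _ => Ww k) = (dl h' * E) ^ r * (dl h ^ r * fun _ => Ww k) := by
      calc E ^ r * (fun _ => Ww k) = (dl h' * dl h) ^ r * (E ^ r * fun _ => Ww k) := by
            rw [hdd, one_pow, one_mul]
        _ = (dl h' * E) ^ r * (dl h ^ r * fun _ => Ww k) := by ring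
    rw [h1]
    refine APK_MR_mul (APK_MR_pow hER r) ?_
    intro g
    simp only [Pi.mul_apply, Pi.pow_apply, dl]
    split_ifs
    · rw [hhr]
      refine (Rr k).sub_mem (APK_Ww_mem k) ?_
      intro j i hi
      rw [Tt, HahnSeries.coeff_single]
      split_ifs
      · rw [HahnSeries.coeff_one, if_neg (by omega)]
      · simp
    · rw [one_pow, one_mul]
      exact APK_Ww_mem k
  obtain ⟨f, hf⟩ := hInt k G B hG a j hj hpow th hth _ hfS hfR
  -- the `a_i`
  have hc : ∀ i, ∃ z, th z = E * e' i := by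
    intro i
    refine hInt k G B hG a j hj hpow th hth _ (hMmul _ _ hES (he'S i)) ?_
    have h1 : E * e' i = (dl h' * E) * (dl h * e' i) := by
      calc E * e' i = (dl h' * dl h) * (E * e' i) := by rw [hdd, one_mul]
        _ = (dl h' * E) * (dl h * e' i) := by ring
    rw [h1]
    exact APK_MR_mul hER (he'R i)
  choose c hc using hc
  -- the point
  have hya : y (algebraMap k[X] B X) = a := by
    rw [← hy0, hj.2]
    simp
  have hjC : ∀ t : k, j (algebraMap k B t) = HahnSeries.C t := by
    intro t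
    rw [IsScalarTower.algebraMap_apply k k[X] B t]
    exact hj.1 t
  have h1t : ∀ (z : B) (g : G), th ((1 : Kf k) ⊗ₜ[k] z) g = HahnSeries.C (j (g⁻¹ • z)) := by
    intro z g
    rw [hth, map_one, map_one, one_mul]
  have hcom : ∀ (g : G) (p : k[X]), g • algebraMap k[X] B p = algebraMap k[X] B p := hG.comm
  have hwat : th ((1 : Kf k) ⊗ₜ[k] wat y) = fun _ => Ww k := by
    funext g
    rw [h1t, wat, hcom, hya, map_sub, map_sub, hj.1 a, hj.2, add_sub_cancel_left, Ww]
  set X1 : ι → G → Fk k := fun u => th ((1 : Kf k) ⊗ₜ[k] (b u - algebraMap k B (y (b u)))) with hX1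
  set X2 : ι → G → Fk k := fun l => th ((1 : Kf k) ⊗ₜ[k] b l -
    ((kfl k).symm.toRingHom.comp j) (b l) ⊗ₜ[k] (1 : B)) with hX2
  have hX1g : ∀ u g, X1 u g = HahnSeries.C (j (g⁻¹ • (b u - algebraMap k B (y (b u))))) := by
    intro u g
    exact h1t _ g
  have hX2g : ∀ u g, X2 u g = HahnSeries.C (j (g⁻¹ • b u)) - KF k (j (b u)) := by
    intro u g
    rw [hX2]
    simp only
    rw [map_sub, Pi.sub_apply, h1t, hth, smul_one, map_one, map_one, mul_one]
    rfl
  obtain ⟨hG1, ⟨z1, hz1R, hz1⟩, hG3, ⟨z2, hz2R, hz2⟩⟩ :=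
    hGn k G B hG a j hj hpow y hy hy0 ι b hb X1 X2 hX1g hX2g
  obtain ⟨u0, hu0⟩ := hb.1
  have hX1u0 : X1 u0 = fun _ => Ww k := by
    funext g
    rw [hX1g, hu0, hya, IsScalarTower.algebraMap_apply k k[X] B a, ← map_sub, hcom, map_sub,
      map_sub, hj.2]
    have h2 : j (algebraMap k[X] B (algebraMap k k[X] a)) = HahnSeries.C a := hj.1 a
    rw [h2, add_sub_cancel_left, Ww]
  have hX2u0 : X2 u0 = fun _ => Ww k - Tt k := by
    funext g
    rw [hX2g, hu0, hcom, hj.2, map_add, map_add, APK_KF_C, APK_KF_single, Ww]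
    ring
  have hMX1 : ∀ u, MSp j (X1 u) := fun u => hMt _
  have hMX2 : ∀ u, MSp j (X2 u) := fun u => hMt _
  have hkey := APK_key r h h' (Ww k) (Tt k) hhh hhr E
  refine ⟨n, f, c, ?_, ?_, ?_⟩
  · -- `f ≠ 0`
    intro h0
    rw [h0, map_zero] at hf
    obtain ⟨g, hg⟩ := Function.ne_iff.1 hi0
    have h2 := congrFun hf g
    rw [Pi.mul_apply, Pi.pow_apply, Pi.zero_apply] at h2
    exact mul_ne_zero (pow_ne_zero r hg) (APK_Ww_ne k) h2.symm
  · -- first equation
    intro u
    have hth_y : ∀ (α : Fin r → Fin n) (l : ι),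
        th (((1 : Kf k) ⊗ₜ[k] wat y) * (∏ t, c (α t)) *
          ((1 : Kf k) ⊗ₜ[k] b l - ((kfl k).symm.toRingHom.comp j) (b l) ⊗ₜ[k] (1 : B))) =
        (fun _ => Ww k) * (∏ t, (E * e' (α t))) * X2 l := by
      intro α l
      rw [map_mul, map_mul, hwat, map_prod]
      simp only [hc]
      rfl
    have hth_x : th (f * ((1 : Kf k) ⊗ₜ[k] (b u - algebraMap k B (y (b u))))) =
        (E ^ r * fun _ => Ww k) * X1 u := by
      rw [map_mul, hf]
    obtain ⟨z, hz⟩ := hLD k G B hG a j hj hinj hpow th hth ((Fin r → Fin n) × ι)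
      (f * ((1 : Kf k) ⊗ₜ[k] (b u - algebraMap k B (y (b u)))))
      (fun p => ((1 : Kf k) ⊗ₜ[k] wat y) * (∏ t, c (p.1 t)) *
          ((1 : Kf k) ⊗ₜ[k] b p.2 - ((kfl k).symm.toRingHom.comp j) (b p.2) ⊗ₜ[k] (1 : B)))
      (by
        -- over `R`
        obtain ⟨ρ, hρR, hρ⟩ := he'Rs (dl h') (by rw [hdd']; exact APK_MR_one)
        obtain ⟨z3, hz3R, hz3⟩ := hG1 u
        refine ⟨fun p => (fun _ => ∏ t, ρ (p.1 t)) * z2 p.2 * z3, ?_, ?_⟩
        · intro p
          refine APK_MR_mul (APK_MR_mul (APK_MR_const ?_) (hz2R _)) hz3R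
          exact (Rr k).prod_mem fun t _ => hρR _
        · simp only [hth_x, hth_y]
          rw [Fintype.sum_prod_type]
          have h1 := APK_expand r n E (dl h') ρ e' hρ
          calc (E ^ r * fun _ => Ww k) * X1 u
              = ((fun _ => Ww k) * E ^ r * dl (Ww k)) * z3 := by rw [hz3]; ring
            _ = ((fun _ => Ww k) * (E * dl h') ^ r * dl (Ww k - Tt k)) * z3 := by rw [hkey]
            _ = ((fun _ => Ww k) * (∑ α : Fin r → Fin n,
                  (fun _ => ∏ t, ρ (α t)) * ∏ t, (E * e' (α t))) * (∑ l, z2 l * X2 l)) * z3 := by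
                rw [h1, hz2]
            _ = ((fun _ => Ww k) * z3) * ((∑ α : Fin r → Fin n,
                  (fun _ => ∏ t, ρ (α t)) * ∏ t, (E * e' (α t))) * (∑ l, z2 l * X2 l)) := by
                ring
            _ = ∑ α : Fin r → Fin n, ∑ l, ((fun _ => ∏ t, ρ (α t)) * z2 l * z3) *
                  ((fun _ => Ww k) * (∏ t, (E * e' (α t))) * X2 l) := by
                rw [Finset.sum_mul_sum, Finset.mul_sum]
                refine Finset.sum_congr rfl fun α _ => ?_
                rw [Finset.mul_sum]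
                refine Finset.sum_congr rfl fun l _ => ?_
                ring)
      (by
        -- over `S`
        obtain ⟨σ, hσS, hσ⟩ := he'Ss 1 hMone
        refine ⟨fun p => if p.2 = u0 then (fun _ => (∏ t, σ (p.1 t)) * w2) * X1 u else 0, ?_, ?_⟩
        · intro p
          simp only
          split_ifs
          · refine hMmul _ _ (hMc _ ((Ss k).mul_mem ((Ss k).prod_mem fun t _ => hσS _) hw2S))
              (hMX1 u)
          · exact hMc 0 (Ss k).zero_mem
        · simp only [hth_x, hth_y]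
          rw [Fintype.sum_prod_type]
          have h1 := APK_expand r n E 1 σ e' hσ
          rw [mul_one] at h1
          have h2 : (fun _ => w2 : G → Fk k) * X2 u0 = 1 := by
            rw [hX2u0]
            funext g
            simp only [Pi.mul_apply, Pi.one_apply]
            rw [mul_comm]
            exact hw2
          have h3 : ∀ α : Fin r → Fin n, ((fun _ => (∏ t, σ (α t)) * w2 : G → Fk k)) =
              (fun _ => ∏ t, σ (α t)) * (fun _ => w2) := fun α => rfl
          rw [h1, Finset.sum_mul, Finset.sum_mul]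
          refine Finset.sum_congr rfl fun α _ => ?_
          rw [Finset.sum_eq_single u0]
          · rw [if_pos rfl, h3]
            calc (((fun _ => ∏ t, σ (α t)) * ∏ t, (E * e' (α t))) * fun _ => Ww k) * X1 u
                = (((fun _ => ∏ t, σ (α t)) * ∏ t, (E * e' (α t))) * fun _ => Ww k) * X1 u *
                    ((fun _ => w2) * X2 u0) := by rw [h2, mul_one]
              _ = ((fun _ => ∏ t, σ (α t)) * (fun _ => w2)) * X1 u *
                    ((fun _ => Ww k) * (∏ t, (E * e' (α t))) * X2 u0) := by ring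
          · intro l _ hl
            rw [if_neg hl, zero_mul]
          · intro hcon
            exact absurd (Finset.mem_univ _) hcon)
    refine ⟨fun α l => z (α, l), ?_⟩
    rw [hz, Fintype.sum_prod_type]
    refine Finset.sum_congr rfl fun α _ => Finset.sum_congr rfl fun l _ => ?_
    rw [mul_comm]
  · -- second equation
    intro α l
    have hth_x : th (((1 : Kf k) ⊗ₜ[k] wat y) * (∏ t, c (α t)) *
          ((1 : Kf k) ⊗ₜ[k] b l - ((kfl k).symm.toRingHom.comp j) (b l) ⊗ₜ[k] (1 : B))) =
        (fun _ => Ww k) * (∏ t, (E * e' (α t))) * X2 l := by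
      rw [map_mul, map_mul, hwat, map_prod]
      simp only [hc]
      rfl
    have hth_y : ∀ u, th (f * ((1 : Kf k) ⊗ₜ[k] (b u - algebraMap k B (y (b u))))) =
        (E ^ r * fun _ => Ww k) * X1 u := by
      intro u
      rw [map_mul, hf]
    obtain ⟨z, hz⟩ := hLD k G B hG a j hj hinj hpow th hth ι
      (((1 : Kf k) ⊗ₜ[k] wat y) * (∏ t, c (α t)) *
          ((1 : Kf k) ⊗ₜ[k] b l - ((kfl k).symm.toRingHom.comp j) (b l) ⊗ₜ[k] (1 : B)))
      (fun u => f * ((1 : Kf k) ⊗ₜ[k] (b u - algebraMap k B (y (b u)))))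
      (by
        -- over `R`
        obtain ⟨z3, hz3R, hz3⟩ := hG3 l
        refine ⟨fun u => (∏ t, (dl h * e' (α t))) * z3 * z1 u, ?_, ?_⟩
        · intro u
          exact APK_MR_mul (APK_MR_mul (APK_MR_prod _ _ fun t => he'R _) hz3R) (hz1R u)
        · simp only [hth_x, hth_y]
          have h1 : ∏ t, (E * e' (α t)) = (E * dl h') ^ r * ∏ t, (dl h * e' (α t)) := by
            have h2 : ∀ t, E * e' (α t) = (E * dl h') * (dl h * e' (α t)) := by
              intro t
              calc E * e' (α t) = (dl h' * dl h) * (E * e' (α t)) := by rw [hdd, one_mul]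
                _ = (E * dl h') * (dl h * e' (α t)) := by ring
            rw [Finset.prod_congr rfl fun t _ => h2 t, Finset.prod_mul_distrib, Finset.prod_const,
              Finset.card_univ, Fintype.card_fin]
          calc (fun _ => Ww k) * (∏ t, (E * e' (α t))) * X2 l
              = ((fun _ => Ww k) * (E * dl h') ^ r * dl (Ww k - Tt k)) *
                  ((∏ t, (dl h * e' (α t))) * z3) := by rw [h1, hz3]; ring
            _ = ((fun _ => Ww k) * E ^ r * (∑ u, z1 u * X1 u)) *
                  ((∏ t, (dl h * e' (α t))) * z3) := by rw [hkey, hz1]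
            _ = ∑ u, (∏ t, (dl h * e' (α t))) * z3 * z1 u *
                  ((E ^ r * fun _ => Ww k) * X1 u) := by
                rw [Finset.mul_sum, Finset.sum_mul]
                refine Finset.sum_congr rfl fun u _ => ?_
                ring)
      (by
        -- over `S`
        refine ⟨fun u => if u = u0 then (fun _ => w1) * (∏ t, e' (α t)) * X2 l else 0, ?_, ?_⟩
        · intro u
          simp only
          split_ifs
          · exact hMmul _ _ (hMmul _ _ (hMc _ hw1S) (hMprod r _ fun t => he'S _)) (hMX2 l)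
          · exact hMc 0 (Ss k).zero_mem
        · simp only [hth_x, hth_y]
          rw [Finset.sum_eq_single u0]
          · rw [if_pos rfl]
            have h2 : (fun _ => w1 : G → Fk k) * X1 u0 = 1 := by
              rw [hX1u0]
              funext g
              simp only [Pi.mul_apply, Pi.one_apply]
              rw [mul_comm]
              exact hw1
            have h3 : ∏ t, (E * e' (α t)) = E ^ r * ∏ t, e' (α t) := by
              rw [Finset.prod_mul_distrib, Finset.prod_const, Finset.card_univ, Fintype.card_fin]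
            rw [h3]
            calc (fun _ => Ww k) * (E ^ r * ∏ t, e' (α t)) * X2 l
                = (fun _ => Ww k) * (E ^ r * ∏ t, e' (α t)) * X2 l * ((fun _ => w1) * X1 u0) := by
                  rw [h2, mul_one]
              _ = (fun _ => w1) * (∏ t, e' (α t)) * X2 l * ((E ^ r * fun _ => Ww k) * X1 u0) := by
                  ring
          · intro u _ hu
            rw [if_neg hu, zero_mul]
          · intro hcon
            exact absurd (Finset.mem_univ _) hcon)
    refine ⟨z, ?_⟩
    rw [hz]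
    refine Finset.sum_congr rfl fun u _ => ?_
    rw [mul_comm]

end MP7b0bad
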