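import Pool.Agent.Work.MP_7b0bad_ag.AP.Stmts

set_option autoImplicit false

/-!
# APLD: descent of linear equations from `M_S` and `M_R` to `K ⊗ B`
-/

namespace MP7b0bad

open Polynomial TensorProduct

theorem APLD_KF_C {k : Type} [Field k] (c : k) :
    KF k (HahnSeries.C c) = HahnSeries.C (HahnSeries.C c : LaurentSeries k) := by
  refine HahnSeries.ext ?_
  funext n
  show ((HahnSeries.C c : LaurentSeries k).map (HahnSeries.C : k →+* LaurentSeries k)).coeff n = _
  rw [HahnSeries.map_coeff]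
  by_cases hn : n = 0
  · subst hn
    have h1 : (HahnSeries.C c : LaurentSeries k).coeff 0 = c := HahnSeries.coeff_single_same _ _
    have h2 : (HahnSeries.C (HahnSeries.C c : LaurentSeries k) : Fk k).coeff 0 =
        (HahnSeries.C c : LaurentSeries k) := HahnSeries.coeff_single_same _ _
    rw [h1, h2]
  · have h1 : (HahnSeries.C c : LaurentSeries k).coeff n = 0 := HahnSeries.coeff_single_of_ne hn
    have h2 : (HahnSeries.C (HahnSeries.C c : LaurentSeries k) : Fk k).coeff n = 0 :=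
      HahnSeries.coeff_single_of_ne hn
    rw [h1, h2, map_zero]

/-- `f ↦ f(a + w)` -/
noncomputable def APLD_tr {k : Type} [Field k] (a : k) : k[X] →+* (LaurentSeries k)[X] :=
  eval₂RingHom ((C : LaurentSeries k →+* (LaurentSeries k)[X]).comp
    (HahnSeries.C : k →+* LaurentSeries k)) (X + C (HahnSeries.C a))

theorem APLD_jj_C {k : Type} [Field k] (c : LaurentSeries k) : jj k (C c) = KF k c := by
  show eval₂ (KF k) (Ww k) (C c) = KF k c
  exact eval₂_C _ _

theorem APLD_jj_X {k : Type} [Field k] : jj k X = Ww k := by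
  show eval₂ (KF k) (Ww k) X = Ww k
  exact eval₂_X _ _

theorem APLD_jj_tr {k : Type} [Field k] {B : Type} [CommRing B] [Algebra k[X] B] (a : k)
    (j : B →+* LaurentSeries k) (hj : Cpl a j) (f : k[X]) :
    jj k (APLD_tr a f) = HahnSeries.C (j (algebraMap k[X] B f)) := by
  have h : (jj k).comp (APLD_tr a) =
      (HahnSeries.C : LaurentSeries k →+* Fk k).comp (j.comp (algebraMap k[X] B)) := by
    apply Polynomial.ringHom_ext
    · intro c
      show jj k (APLD_tr a (C c)) = HahnSeries.C (j (algebraMap k[X] B (C c)))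
      have h1 : APLD_tr a (C c) = C (HahnSeries.C c : LaurentSeries k) := by
        show eval₂ _ _ (C c) = _
        rw [eval₂_C]
        rfl
      rw [h1, APLD_jj_C, APLD_KF_C, hj.1 c]
    · show jj k (APLD_tr a X) = HahnSeries.C (j (algebraMap k[X] B X))
      have h1 : APLD_tr a X = X + C (HahnSeries.C a : LaurentSeries k) := by
        show eval₂ _ _ X = _
        rw [eval₂_X]
      rw [h1, map_add, APLD_jj_C, APLD_jj_X, APLD_KF_C, hj.2, map_add, add_comm]
      rfl
  exact congrArg (fun φ : k[X] →+* Fk k => φ f) h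

set_option linter.unusedSectionVars false
set_option linter.unusedVariables false

section

variable {k : Type} [Field k] {G : Type} [Group G] {B : Type} [CommRing B] [Algebra k[X] B]
  [Algebra k B] [IsScalarTower k k[X] B] [MulSemiringAction G B]

/-- coordinates of the elements `th z` are polynomials -/
theorem APLD_coord (hG : GalAlg k[X] G B) (a : k) (j : B →+* LaurentSeries k) (hj : Cpl a j)
    (th : (Kf k ⊗[k] B) →+* (G → Fk k)) (hth : IsTh j th) {n : ℕ}
    (β : Module.Basis (Fin n) k[X] B) (z : Kf k ⊗[k] B) :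
    ∃ u : Fin n → (LaurentSeries k)[X], ∀ g, th z g =
      ∑ m, jj k (u m) * HahnSeries.C (j (g⁻¹ • β m)) := by
  induction z using TensorProduct.induction_on with
  | zero =>
    refine ⟨fun _ => 0, fun g => ?_⟩
    simp
  | tmul c b =>
    refine ⟨fun m => C (kfl k c) * APLD_tr a (β.repr b m), fun g => ?_⟩
    rw [hth c b g]
    have h1 : j (g⁻¹ • b) = ∑ m, j (algebraMap k[X] B (β.repr b m)) * j (g⁻¹ • β m) := by
      conv_lhs => rw [← β.sum_repr b]
      rw [Finset.smul_sum, map_sum]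
      refine Finset.sum_congr rfl fun m _ => ?_
      rw [Algebra.smul_def, smul_mul', hG.comm, map_mul]
    rw [h1, map_sum, Finset.mul_sum]
    refine Finset.sum_congr rfl fun m _ => ?_
    rw [map_mul (HahnSeries.C : LaurentSeries k →+* Fk k), map_mul (jj k), APLD_jj_C,
      APLD_jj_tr (B := B) a j hj, mul_assoc]
  | add x y hx hy =>
    obtain ⟨u, hu⟩ := hx
    obtain ⟨v, hv⟩ := hy
    refine ⟨fun m => u m + v m, fun g => ?_⟩
    rw [map_add, Pi.add_apply, hu, hv, ← Finset.sum_add_distrib]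
    refine Finset.sum_congr rfl fun m _ => ?_
    rw [map_add, add_mul]

/-- `K[w] → K ⊗ B` -/
noncomputable def APLD_e (k : Type) [Field k] (B : Type) [CommRing B] [Algebra k[X] B]
    [Algebra k B] (a : k) : (LaurentSeries k)[X] →+* (Kf k ⊗[k] B) :=
  eval₂RingHom
    ((Algebra.TensorProduct.includeLeftRingHom : Kf k →+* (Kf k ⊗[k] B)).comp
      ((kfl k).symm.toRingHom))
    ((1 : Kf k) ⊗ₜ[k] algebraMap k[X] B (X - C a))

theorem APLD_th_e (hG : GalAlg k[X] G B) (a : k) (j : B →+* LaurentSeries k) (hj : Cpl a j)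
    (th : (Kf k ⊗[k] B) →+* (G → Fk k)) (hth : IsTh j th) (p : (LaurentSeries k)[X]) (g : G) :
    th (APLD_e k B a p) g = jj k p := by
  have h : ((Pi.evalRingHom (fun _ : G => Fk k) g).comp th).comp (APLD_e k B a) = jj k := by
    apply Polynomial.ringHom_ext
    · intro c
      show th (APLD_e k B a (C c)) g = jj k (C c)
      have h1 : APLD_e k B a (C c) = ((kfl k).symm c) ⊗ₜ[k] (1 : B) := by
        show eval₂ _ _ (C c) = _
        rw [eval₂_C]
        rfl
      rw [h1, hth, APLD_jj_C, smul_one, map_one, map_one, mul_one, RingEquiv.apply_symm_apply]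
    · show th (APLD_e k B a X) g = jj k X
      have h1 : APLD_e k B a X = (1 : Kf k) ⊗ₜ[k] algebraMap k[X] B (X - C a) := by
        show eval₂ _ _ X = _
        rw [eval₂_X]
      rw [h1, hth, APLD_jj_X, hG.comm, map_one, map_one, one_mul, map_sub, map_sub, hj.2, hj.1 a]
      rw [add_sub_cancel_left]
      rfl
  exact congrArg (fun φ : (LaurentSeries k)[X] →+* Fk k => φ p) h

theorem APLD_th_unique (j : B →+* LaurentSeries k) (th th' : (Kf k ⊗[k] B) →+* (G → Fk k))
    (hth : IsTh j th) (hth' : IsTh j th') : th = th' := by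
  apply RingHom.ext
  intro z
  induction z using TensorProduct.induction_on with
  | zero => rw [map_zero, map_zero]
  | tmul c b =>
    funext g
    rw [hth, hth']
  | add x y hx hy => rw [map_add, map_add, hx, hy]

/-- comparison of coordinates -/
theorem APLD_half (hG : GalAlg k[X] G B) (a : k) (j : B →+* LaurentSeries k) (hj : Cpl a j)
    (th : (Kf k ⊗[k] B) →+* (G → Fk k)) (hth : IsTh j th) {n : ℕ}
    (β : Module.Basis (Fin n) k[X] B)
    (huniq : ∀ v : G → Fk k, ∃! c : Fin n → Fk k, ∀ g, v g =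
      ∑ l, c l * HahnSeries.C (j (g⁻¹ • β l)))
    {ι : Type} [Fintype ι] (x : Kf k ⊗[k] B) (y : ι → Kf k ⊗[k] B)
    (V : Fin n → (LaurentSeries k)[X])
    (hV : ∀ g, th x g = ∑ m, jj k (V m) * HahnSeries.C (j (g⁻¹ • β m)))
    (U : ι → Fin n → Fin n → (LaurentSeries k)[X])
    (hU : ∀ i l g, th (y i * ((1 : Kf k) ⊗ₜ[k] β l)) g =
      ∑ m, jj k (U i l m) * HahnSeries.C (j (g⁻¹ • β m)))
    (c : ι → G → Fk k) (hc : th x = ∑ i, c i * th (y i))
    (ρ : ι → Fin n → Fk k) (hρ : ∀ i g, c i g = ∑ l, ρ i l * HahnSeries.C (j (g⁻¹ • β l)))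
    (m : Fin n) : jj k (V m) = ∑ q : ι × Fin n, ρ q.1 q.2 * jj k (U q.1 q.2 m) := by
  obtain ⟨c0, _, h0⟩ := huniq (th x)
  have h1 : (fun m => jj k (V m)) = c0 := h0 _ hV
  have h2 : (fun m => ∑ q : ι × Fin n, ρ q.1 q.2 * jj k (U q.1 q.2 m)) = c0 := by
    refine h0 _ fun g => ?_
    have h3 : th x g = ∑ i, c i g * th (y i) g := by
      rw [hc, Finset.sum_apply]
      rfl
    rw [h3]
    have h4 : ∀ i, c i g * th (y i) g = ∑ l, ρ i l * th (y i * ((1 : Kf k) ⊗ₜ[k] β l)) g := by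
      intro i
      rw [hρ, Finset.sum_mul]
      refine Finset.sum_congr rfl fun l _ => ?_
      rw [map_mul, Pi.mul_apply, hth, map_one, map_one, one_mul]
      ring
    rw [Finset.sum_congr rfl fun i _ => h4 i]
    have h5 : ∀ i l, ρ i l * th (y i * ((1 : Kf k) ⊗ₜ[k] β l)) g =
        ∑ m, ρ i l * jj k (U i l m) * HahnSeries.C (j (g⁻¹ • β m)) := by
      intro i l
      rw [hU, Finset.mul_sum]
      refine Finset.sum_congr rfl fun m _ => ?_
      rw [mul_assoc]
    have h6 : ∑ i, ∑ l, ρ i l * th (y i * ((1 : Kf k) ⊗ₜ[k] β l)) g =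
        ∑ q : ι × Fin n, ∑ m, ρ q.1 q.2 * jj k (U q.1 q.2 m) * HahnSeries.C (j (g⁻¹ • β m)) := by
      rw [Fintype.sum_prod_type]
      refine Finset.sum_congr rfl fun i _ => Finset.sum_congr rfl fun l _ => ?_
      exact h5 i l
    rw [h6, Finset.sum_comm]
    refine Finset.sum_congr rfl fun m _ => ?_
    rw [Finset.sum_mul]
  exact (congrFun h1 m).trans (congrFun h2 m).symm

end

theorem prf_APLD (hB : APBas) (hLD : LD) (hTh : APTh) : APLD := by
  intro k _ G _ _ B _ _ _ _ _ hG a j hj hji hj0 th hth ι _ x y hR hS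
  obtain ⟨th', hth', hinj⟩ := hTh k G B hG j hj.1 hji
  have hinj' : Function.Injective th := by
    rw [APLD_th_unique j th th' hth hth']
    exact hinj
  obtain ⟨n, β, hu, hbR, hbS⟩ := hB k G B hG a j hj hj0
  obtain ⟨V, hV⟩ := APLD_coord hG a j hj th hth β x
  have hUex : ∀ (i : ι) (l : Fin n), ∃ u : Fin n → (LaurentSeries k)[X], ∀ g,
      th (y i * ((1 : Kf k) ⊗ₜ[k] β l)) g =
        ∑ m, jj k (u m) * HahnSeries.C (j (g⁻¹ • β m)) :=
    fun i l => APLD_coord hG a j hj th hth β _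
  choose U hU using hUex
  let E : Fin (Fintype.card (ι × Fin n)) ≃ ι × Fin n := (Fintype.equivFin (ι × Fin n)).symm
  obtain ⟨p, hp⟩ := hLD k n (Fintype.card (ι × Fin n)) (fun t m => U (E t).1 (E t).2 m) V
    (by
      obtain ⟨c, hc, hcx⟩ := hR
      have h1 : ∀ i, ∃ ρ : Fin n → Fk k, (∀ l, ρ l ∈ Rr k) ∧
          ∀ g, c i g = ∑ l, ρ l * HahnSeries.C (j (g⁻¹ • β l)) := fun i => hbR (c i) (hc i)
      choose ρ hρ1 hρ2 using h1
      refine ⟨fun t => ρ (E t).1 (E t).2, fun t => hρ1 _ _, fun m => ?_⟩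
      rw [APLD_half hG a j hj th hth β hu x y V hV U hU c hcx ρ hρ2 m]
      exact (E.sum_comp (fun q : ι × Fin n => ρ q.1 q.2 * jj k (U q.1 q.2 m))).symm)
    (by
      obtain ⟨c, hc, hcx⟩ := hS
      have h1 : ∀ i, ∃ ρ : Fin n → Fk k, (∀ l, ρ l ∈ Ss k) ∧
          ∀ g, c i g = ∑ l, ρ l * HahnSeries.C (j (g⁻¹ • β l)) := fun i => hbS (c i) (hc i)
      choose ρ hρ1 hρ2 using h1
      refine ⟨fun t => ρ (E t).1 (E t).2, fun t => hρ1 _ _, fun m => ?_⟩
      rw [APLD_half hG a j hj th hth β hu x y V hV U hU c hcx ρ hρ2 m]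
      exact (E.sum_comp (fun q : ι × Fin n => ρ q.1 q.2 * jj k (U q.1 q.2 m))).symm)
  refine ⟨fun i => ∑ l, APLD_e k B a (p (E.symm (i, l))) * ((1 : Kf k) ⊗ₜ[k] β l), hinj' ?_⟩
  funext g
  rw [hV g, map_sum, Finset.sum_apply]
  have h1 : ∀ i, th ((∑ l, APLD_e k B a (p (E.symm (i, l))) * ((1 : Kf k) ⊗ₜ[k] β l)) * y i) g =
      ∑ l, ∑ m, jj k (p (E.symm (i, l))) * jj k (U i l m) * HahnSeries.C (j (g⁻¹ • β m)) := by
    intro i
    rw [Finset.sum_mul, map_sum, Finset.sum_apply]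
    refine Finset.sum_congr rfl fun l _ => ?_
    have h2 : APLD_e k B a (p (E.symm (i, l))) * ((1 : Kf k) ⊗ₜ[k] β l) * y i =
        APLD_e k B a (p (E.symm (i, l))) * (y i * ((1 : Kf k) ⊗ₜ[k] β l)) := by ring
    rw [h2, map_mul, Pi.mul_apply, APLD_th_e hG a j hj th hth, hU, Finset.mul_sum]
    refine Finset.sum_congr rfl fun m _ => ?_
    rw [mul_assoc]
  rw [Finset.sum_congr rfl fun i _ => h1 i]
  have h3 : ∑ i, ∑ l, ∑ m, jj k (p (E.symm (i, l))) * jj k (U i l m) *
      HahnSeries.C (j (g⁻¹ • β m)) =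
      ∑ q : ι × Fin n, ∑ m, jj k (p (E.symm q)) * jj k (U q.1 q.2 m) *
      HahnSeries.C (j (g⁻¹ • β m)) := by
    rw [Fintype.sum_prod_type]
  rw [h3, Finset.sum_comm]
  refine Finset.sum_congr rfl fun m _ => ?_
  rw [← Finset.sum_mul]
  congr 1
  rw [hp m, map_sum]
  rw [← E.sum_comp (fun q : ι × Fin n => jj k (p (E.symm q)) * jj k (U q.1 q.2 m))]
  refine Finset.sum_congr rfl fun t _ => ?_
  rw [map_mul, Equiv.symm_apply_apply]

end MP7b0bad
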