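import Pool.Agent.Work.MP_7b0bad_ag.AP.Stmts

set_option autoImplicit false

namespace MP7b0bad

open Polynomial TensorProduct

/-- the basis of functions given by unique expansions -/
lemma APLat_basis (K : Type) [Field K] (G : Type) (n : ℕ) (w : Fin n → G → K)
    (h : ∀ v : G → K, ∃! c : Fin n → K, ∀ g, v g = ∑ l, c l * w l g) :
    ∃ e : Module.Basis (Fin n) K (G → K),
      ∀ (v : G → K) (c : Fin n → K), (∀ g, v g = ∑ l, c l * w l g) ↔ ∀ l, e.repr v l = c l := by
  classical
  have happ : ∀ (c : Fin n → K) (g : G),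
      (Fintype.linearCombination K w c) g = ∑ l, c l * w l g := by
    intro c g
    simp [Fintype.linearCombination_apply, Finset.sum_apply]
  have hbij : Function.Bijective (Fintype.linearCombination K w) := by
    constructor
    · intro c c' hcc
      obtain ⟨c0, _, hu⟩ := h (Fintype.linearCombination K w c)
      have h1 : c = c0 := hu c (fun g => happ c g)
      have h2 : c' = c0 := hu c' (fun g => by rw [hcc]; exact happ c' g)
      rw [h1, h2]
    · intro v
      obtain ⟨c, hc, _⟩ := h v
      exact ⟨c, funext fun g => by rw [happ, ← hc g]⟩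
  let E := LinearEquiv.ofBijective (Fintype.linearCombination K w) hbij
  refine ⟨Module.Basis.ofEquivFun E.symm, fun v c => ?_⟩
  have hE : ∀ c : Fin n → K, E c = Fintype.linearCombination K w c := fun c => rfl
  have hrep : ∀ l, (Module.Basis.ofEquivFun E.symm).repr v l = E.symm v l := by
    intro l
    simp [Module.Basis.ofEquivFun]
  constructor
  · intro hv l
    rw [hrep]
    have : v = E c := funext fun g => by rw [hE, happ, hv g]
    rw [this, LinearEquiv.symm_apply_apply]
  · intro hl g
    have : E.symm v = c := funext fun l => by rw [← hrep, hl l]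
    have h2 : v = E c := by rw [← this, LinearEquiv.apply_symm_apply]
    conv_lhs => rw [h2]
    rw [hE, happ]

/-- the basis of functions, rescaled at `1` -/
lemma APLat_fbasis (k : Type) [Field k] (G : Type) [Group G] [Fintype G] (u u' : Fk k)
    (huu : u * u' = 1) :
    ∃ f : Module.Basis G (Fk k) (G → Fk k),
      ∀ (v : G → Fk k) (g : G), f.repr v g = dl u' g * v g := by
  classical
  let w : G → (Fk k)ˣ := fun g => if g = 1 then Units.mk u u' huu (by rw [mul_comm]; exact huu) else 1
  refine ⟨(Pi.basisFun (Fk k) G).unitsSMul w, fun v g => ?_⟩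
  rw [Module.Basis.repr_unitsSMul, Pi.basisFun_repr, Units.smul_def, smul_eq_mul]
  congr 1
  by_cases hg : g = 1
  · simp [w, dl, hg]
  · simp [w, dl, hg]

theorem prf_APLat (hB : APBas) (hPB : PB) : APLat := by
  classical
  intro k _ G _ _ B _ _ _ hG a j hj hneg u u' huu
  obtain ⟨n, β, h1, h2, h3⟩ := hB k G B hG a j hj hneg
  have _ : Fintype G := Fintype.ofFinite G
  obtain ⟨e, he⟩ := APLat_basis (Fk k) G n (fun l g => HahnSeries.C (j (g⁻¹ • β l))) h1
  obtain ⟨f, hf⟩ := APLat_fbasis k G u u' huu
  obtain ⟨b, hbS, hbR⟩ := hPB k (G → Fk k) (Fin n) G e f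
  have hSiff : ∀ v : G → Fk k, MSp j v ↔ ∀ i, e.repr v i ∈ Ss k := by
    intro v
    constructor
    · intro hv i
      obtain ⟨c, hc, hvc⟩ := h3 v hv
      rw [(he v c).1 hvc i]
      exact hc i
    · intro hv
      exact ⟨n, fun i => e.repr v i, fun i => β i, hv, fun g =>
        (he v (fun i => e.repr v i)).2 (fun _ => rfl) g⟩
  have hRiff : ∀ v : G → Fk k, MRp (dl u' * v) ↔ ∀ i, f.repr v i ∈ Rr k := by
    intro v
    constructor
    · intro hv i
      rw [hf]
      exact hv i
    · intro hv i
      rw [Pi.mul_apply, ← hf]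
      exact hv i
  have hexp : ∀ (v : G → Fk k) (g : G), v g = ∑ i, b.repr v i * b i g := by
    intro v g
    conv_lhs => rw [← b.sum_repr v]
    simp [Finset.sum_apply]
  have hself : ∀ (A : Subring (Fk k)) (i l : Fin n), b.repr (b i) l ∈ A := by
    intro A i l
    rw [Module.Basis.repr_self, Finsupp.single_apply]
    split_ifs
    · exact A.one_mem
    · exact A.zero_mem
  refine ⟨n, fun i => b i, fun i => ?_, fun i => ?_, fun v hv => ?_, fun v hv => ?_⟩
  · exact (hSiff _).2 ((hbS _).1 (fun l => hself (Ss k) i l))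
  · exact (hRiff _).2 ((hbR _).1 (fun l => hself (Rr k) i l))
  · exact ⟨fun i => b.repr v i, (hbS v).2 ((hSiff v).1 hv), hexp v⟩
  · exact ⟨fun i => b.repr v i, (hbR v).2 ((hRiff v).1 hv), hexp v⟩

end MP7b0bad
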