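import Pool.Agent.Work.MP_7b0bad_ag.AP.Stmts

set_option autoImplicit false

/-!
# APMS: closure properties of the `S`-span
-/

namespace MP7b0bad

open Polynomial TensorProduct

/-- `MSp` with an arbitrary finite index type -/
theorem APMS_of_fintype {k : Type} [Field k] {B : Type} [CommRing B] {G : Type} [Group G]
    [MulSemiringAction G B] (j : B →+* LaurentSeries k) {ι : Type} [Fintype ι]
    (s : ι → Fk k) (b : ι → B) (hs : ∀ i, s i ∈ Ss k) (v : G → Fk k)
    (hv : ∀ g, v g = ∑ i, s i * HahnSeries.C (j (g⁻¹ • b i))) : MSp j v := by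
  refine ⟨Fintype.card ι, fun i => s ((Fintype.equivFin ι).symm i),
    fun i => b ((Fintype.equivFin ι).symm i), fun i => hs _, fun g => ?_⟩
  rw [hv g]
  exact (Equiv.sum_comp (Fintype.equivFin ι).symm
    (fun i => s i * HahnSeries.C (j (g⁻¹ • b i)))).symm

theorem APMS_add {k : Type} [Field k] {B : Type} [CommRing B] {G : Type} [Group G]
    [MulSemiringAction G B] (j : B →+* LaurentSeries k) (u v : G → Fk k) (hu : MSp j u)
    (hv : MSp j v) : MSp j (u + v) := by
  obtain ⟨m, s, b, hs, h⟩ := hu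
  obtain ⟨m', s', b', hs', h'⟩ := hv
  refine APMS_of_fintype j (ι := Fin m ⊕ Fin m') (Sum.elim s s') (Sum.elim b b') ?_ _ ?_
  · rintro (i | i)
    · exact hs i
    · exact hs' i
  · intro g
    rw [Fintype.sum_sum_type]
    simp only [Sum.elim_inl, Sum.elim_inr]
    rw [Pi.add_apply, h g, h' g]

theorem APMS_mul {k : Type} [Field k] {B : Type} [CommRing B] {G : Type} [Group G]
    [MulSemiringAction G B] (j : B →+* LaurentSeries k) (u v : G → Fk k) (hu : MSp j u)
    (hv : MSp j v) : MSp j (u * v) := by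
  obtain ⟨m, s, b, hs, h⟩ := hu
  obtain ⟨m', s', b', hs', h'⟩ := hv
  refine APMS_of_fintype j (ι := Fin m × Fin m') (fun i => s i.1 * s' i.2)
    (fun i => b i.1 * b' i.2) (fun i => (Ss k).mul_mem (hs i.1) (hs' i.2)) _ ?_
  intro g
  rw [Pi.mul_apply, h g, h' g, Finset.sum_mul_sum, Fintype.sum_prod_type]
  refine Finset.sum_congr rfl fun i _ => Finset.sum_congr rfl fun i' _ => ?_
  rw [smul_mul', map_mul, map_mul]
  ring

theorem APMS_KF (k : Type) [Field k] (c : LaurentSeries k) : KF k c ∈ Ss k := by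
  refine ⟨0, fun j i hi => ?_⟩
  show ((c.map (HahnSeries.C : k →+* LaurentSeries k)).coeff j).coeff i = 0
  rw [HahnSeries.map_coeff]
  exact HahnSeries.coeff_single_of_ne (by omega)

theorem prf_APMS : APMS := by
  intro k _ G _ B _ _ _ _ _ j th hth
  have hconst : ∀ s ∈ Ss k, MSp (G := G) j (fun _ => s) := by
    intro s hs
    refine ⟨1, fun _ => s, fun _ => 1, fun _ => hs, fun g => ?_⟩
    simp
  refine ⟨fun u v hu hv => ⟨APMS_add j u v hu hv, APMS_mul j u v hu hv⟩, hconst, ?_⟩
  intro z
  induction z using TensorProduct.induction_on with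
  | zero =>
    rw [map_zero]
    exact hconst 0 (Ss k).zero_mem
  | tmul c b =>
    refine ⟨1, fun _ => KF k (kfl k c), fun _ => b, fun _ => APMS_KF k _, fun g => ?_⟩
    rw [hth c b g]
    simp
  | add x y hx hy =>
    rw [map_add]
    exact APMS_add j _ _ hx hy

end MP7b0bad
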