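import Pool.Agent.Work.MP_7b0bad_ag.AP.Stmts

set_option autoImplicit false

namespace MP7b0bad

open Polynomial TensorProduct

theorem APOrd_int (k : Type) [Field k] (G : Type) [Group G] [Finite G]
    (B : Type) [CommRing B] [Algebra k[X] B] [MulSemiringAction G B]
    (h : GalAlg k[X] G B) : Algebra.IsIntegral k[X] B := by
  have : Algebra.IsInvariant k[X] B G := ⟨h.inv⟩
  exact Algebra.IsInvariant.isIntegral k[X] B G

/-- the substitution `x ↦ a + s` -/
noncomputable def APOrd_phi (k : Type) [Field k] (a : k) : k[X] →+* PowerSeries k :=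
  (coeToPowerSeries.ringHom).comp (taylorAlgHom a : k[X] →ₐ[k] k[X]).toRingHom

theorem APOrd_phi_inj (k : Type) [Field k] (a : k) : Function.Injective (APOrd_phi k a) := by
  intro f g hfg
  have h1 : ((taylor a f : k[X]) : PowerSeries k) = ((taylor a g : k[X]) : PowerSeries k) := hfg
  exact taylor_injective a (Polynomial.coe_injective k h1)

theorem APOrd_comp (k : Type) [Field k] (B : Type) [CommRing B] [Algebra k[X] B]
    (a : k) (j : B →+* LaurentSeries k) (hj : Cpl a j) :
    j.comp (algebraMap k[X] B) = (HahnSeries.ofPowerSeries ℤ k).comp (APOrd_phi k a) := by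
  refine Polynomial.ringHom_ext (fun c => ?_) ?_
  · have h1 := hj.1 c
    simp only [RingHom.comp_apply]
    rw [h1]
    have h2 : APOrd_phi k a (C c) = PowerSeries.C c := by
      show ((taylor a (C c) : k[X]) : PowerSeries k) = _
      rw [taylor_C, Polynomial.coe_C]
    rw [h2, HahnSeries.ofPowerSeries_C]
  · have h1 := hj.2
    simp only [RingHom.comp_apply]
    rw [h1]
    have h2 : APOrd_phi k a X = PowerSeries.C a + PowerSeries.X := by
      show ((taylor a X : k[X]) : PowerSeries k) = _
      rw [taylor_X, Polynomial.coe_add, Polynomial.coe_X, Polynomial.coe_C, add_comm]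
    rw [h2, map_add, HahnSeries.ofPowerSeries_C, HahnSeries.ofPowerSeries_X]

theorem APOrd_ps (k : Type) [Field k] (G : Type) [Group G] [Finite G]
    (B : Type) [CommRing B] [Algebra k[X] B] [MulSemiringAction G B]
    (h : GalAlg k[X] G B) (a : k) (j : B →+* LaurentSeries k) (hj : Cpl a j) (b : B) :
    ∃ P : PowerSeries k, HahnSeries.ofPowerSeries ℤ k P = j b := by
  have := APOrd_int k G B h
  obtain ⟨p, hp, hpb⟩ := Algebra.IsIntegral.isIntegral (R := k[X]) b
  have h1 : IsIntegral (PowerSeries k) (j b) := by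
    refine ⟨p.map (APOrd_phi k a), hp.map _, ?_⟩
    rw [Polynomial.eval₂_map]
    have h2 : (algebraMap (PowerSeries k) (LaurentSeries k)).comp (APOrd_phi k a) =
        j.comp (algebraMap k[X] B) := (APOrd_comp k B a j hj).symm
    rw [h2, ← Polynomial.hom_eval₂, hpb, map_zero]
  obtain ⟨P, hP⟩ := IsIntegrallyClosed.isIntegral_iff.1 h1
  exact ⟨P, hP⟩

theorem prf_APOrd : APOrd := by
  intro k _ G _ _ B _ _ _ h a j hj
  have hps := APOrd_ps k G B h a j hj
  refine ⟨?_, ?_, ?_⟩
  · intro b n hn
    obtain ⟨P, hP⟩ := hps b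
    rw [← hP, PowerSeries.coeff_coe, if_pos hn]
  · have hc0 : ∀ P : PowerSeries k, (HahnSeries.ofPowerSeries ℤ k P).coeff 0 =
        PowerSeries.constantCoeff P := by
      intro P
      rw [PowerSeries.coeff_coe, if_neg (lt_irrefl _), Int.natAbs_zero,
        PowerSeries.coeff_zero_eq_constantCoeff]
    refine ⟨{ toFun := fun b => (j b).coeff 0
              map_one' := ?_
              map_mul' := ?_
              map_zero' := ?_
              map_add' := ?_ }, ?_, ?_, ?_⟩
    · rw [map_one, HahnSeries.coeff_one, if_pos rfl]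
    · intro b c
      obtain ⟨P, hP⟩ := hps b
      obtain ⟨Q, hQ⟩ := hps c
      rw [map_mul, ← hP, ← hQ, ← map_mul, hc0, hc0, hc0, map_mul]
    · rw [map_zero, HahnSeries.coeff_zero]
    · intro b c
      rw [map_add, HahnSeries.coeff_add]
    · intro c
      show (j (algebraMap k[X] B (C c))).coeff 0 = c
      rw [hj.1 c, HahnSeries.C_apply, HahnSeries.coeff_single_same]
    · intro b
      rfl
    · show (j (algebraMap k[X] B X)).coeff 0 = a
      rw [hj.2, HahnSeries.coeff_add, HahnSeries.C_apply, HahnSeries.coeff_single_same,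
        HahnSeries.coeff_single_of_ne (by norm_num), add_zero]
  · intro hB
    have := APOrd_int k G B h
    rw [injective_iff_map_eq_zero]
    intro b hb
    by_contra hne
    have h1 := Ideal.comap_ne_bot_of_integral_mem (R := k[X]) (S := B)
      (I := RingHom.ker j) hne ((RingHom.mem_ker).2 hb) (Algebra.IsIntegral.isIntegral b)
    apply h1
    rw [eq_bot_iff]
    intro f hf
    rw [Ideal.mem_comap, RingHom.mem_ker] at hf
    have h2 : (j.comp (algebraMap k[X] B)) f = 0 := hf
    rw [APOrd_comp k B a j hj, RingHom.comp_apply] at h2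
    have h3 : APOrd_phi k a f = 0 := by
      apply HahnSeries.ofPowerSeries_injective (Γ := ℤ) (R := k)
      rw [h2, map_zero]
    have h4 : f = 0 := by
      apply APOrd_phi_inj k a
      rw [h3, map_zero]
    rw [h4]
    exact Ideal.zero_mem _

end MP7b0bad
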