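import Pool.Agent.Work.MP_7b0bad_ag.AP.Stmts

set_option autoImplicit false

/-!
# Project AP, item APRoot: an `r`-th root of `(w - T) / w` in `S`
-/

namespace MP7b0bad

/-- an `r`-th root of `1 - X` in `k[[X]]` by Hensel's lemma -/
theorem APRoot_ps (k : Type) [Field k] (r : ℕ) (hr : (r : k) ≠ 0) :
    ∃ e : PowerSeries k, e ^ r = 1 - PowerSeries.X := by
  have hr0 : r ≠ 0 := by
    rintro rfl
    exact hr Nat.cast_zero
  have hc := B5a_complete k
  have hh : HenselianRing (PowerSeries k) (Ideal.span {(PowerSeries.X : PowerSeries k)}) :=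
    inferInstance
  obtain ⟨a, ha, _⟩ := hh.is_henselian
    (Polynomial.X ^ r - Polynomial.C (1 - PowerSeries.X : PowerSeries k))
    (Polynomial.monic_X_pow_sub_C _ hr0) 1
    (by
      rw [Polynomial.eval_sub, Polynomial.eval_pow, Polynomial.eval_X, Polynomial.eval_C,
        Ideal.mem_span_singleton, one_pow, sub_sub_cancel])
    (by
      have h1 : Polynomial.eval (1 : PowerSeries k) (Polynomial.derivative (Polynomial.X ^ r -
          Polynomial.C (1 - PowerSeries.X : PowerSeries k))) = PowerSeries.C (r : k) := by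
        rw [Polynomial.derivative_sub, Polynomial.derivative_C, sub_zero,
          Polynomial.derivative_X_pow, Polynomial.eval_mul, Polynomial.eval_pow, Polynomial.eval_X]
        simp
      rw [h1]
      exact ((isUnit_iff_ne_zero.2 hr).map (PowerSeries.C (R := k))).map _)
  refine ⟨a, ?_⟩
  rw [Polynomial.IsRoot, Polynomial.eval_sub, Polynomial.eval_pow, Polynomial.eval_X,
    Polynomial.eval_C] at ha
  exact sub_eq_zero.1 ha

/-- `X ↦ T / w`, `k[[X]] → k((w))((T))` -/
noncomputable def APRoot_s (k : Type) [Field k] : PowerSeries k →+* Fk k :=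
  (HahnSeries.ofPowerSeries ℤ (LaurentSeries k)).comp
    ((PowerSeries.rescale (HahnSeries.single (-1 : ℤ) (1 : k))).comp
      (PowerSeries.map (HahnSeries.C : k →+* LaurentSeries k)))

theorem APRoot_s_X (k : Type) [Field k] :
    APRoot_s k PowerSeries.X =
      HahnSeries.C (HahnSeries.single (-1 : ℤ) (1 : k)) * Tt k := by
  have h1 : PowerSeries.rescale (HahnSeries.single (-1 : ℤ) (1 : k))
      (PowerSeries.map (HahnSeries.C : k →+* LaurentSeries k) PowerSeries.X) =
      PowerSeries.C (HahnSeries.single (-1 : ℤ) (1 : k)) * PowerSeries.X := by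
    ext n
    rw [PowerSeries.coeff_rescale, PowerSeries.map_X, PowerSeries.coeff_C_mul, PowerSeries.coeff_X]
    split_ifs with h
    · rw [h, pow_one]
    · rw [mul_zero, mul_zero]
  rw [APRoot_s, RingHom.comp_apply, RingHom.comp_apply, h1, map_mul, HahnSeries.ofPowerSeries_C,
    HahnSeries.ofPowerSeries_X]
  rfl

theorem APRoot_s_mem (k : Type) [Field k] (f : PowerSeries k) : APRoot_s k f ∈ Ss k := by
  refine ⟨0, fun j i hi => ?_⟩
  rw [APRoot_s, RingHom.comp_apply, RingHom.comp_apply]
  rcases lt_or_ge j 0 with hj | hj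
  · rw [show HahnSeries.ofPowerSeries ℤ (LaurentSeries k) (PowerSeries.rescale
      (HahnSeries.single (-1 : ℤ) (1 : k))
      (PowerSeries.map (HahnSeries.C : k →+* LaurentSeries k) f)) =
      ((PowerSeries.rescale (HahnSeries.single (-1 : ℤ) (1 : k))
      (PowerSeries.map (HahnSeries.C : k →+* LaurentSeries k) f) :
        PowerSeries (LaurentSeries k)) : LaurentSeries (LaurentSeries k)) from rfl,
      PowerSeries.coeff_coe, if_pos hj, HahnSeries.coeff_zero]
  · obtain ⟨n, rfl⟩ := Int.eq_ofNat_of_zero_le hj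
    rw [HahnSeries.ofPowerSeries_apply_coeff, PowerSeries.coeff_rescale, PowerSeries.coeff_map,
      HahnSeries.single_pow, one_pow, mul_comm, HahnSeries.C_mul_eq_smul, HahnSeries.coeff_smul,
      HahnSeries.coeff_single_of_ne, smul_zero]
    rw [nsmul_eq_mul]
    omega

theorem prf_APRoot : APRoot := by
  intro k _ r hr
  obtain ⟨e, he⟩ := APRoot_ps k r hr
  have hr0 : r ≠ 0 := by
    rintro rfl
    exact hr Nat.cast_zero
  have he0 : PowerSeries.constantCoeff e ≠ 0 := by
    intro h
    have h1 := congrArg PowerSeries.constantCoeff he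
    rw [map_pow, h, zero_pow hr0, map_sub, map_one, PowerSeries.constantCoeff_X, sub_zero] at h1
    exact zero_ne_one h1
  refine ⟨APRoot_s k e, APRoot_s k e⁻¹, APRoot_s_mem k e, APRoot_s_mem k _, ?_, ?_⟩
  · rw [← map_mul, PowerSeries.mul_inv_cancel e he0, map_one]
  · have hw : HahnSeries.C (HahnSeries.single (-1 : ℤ) (1 : k)) * Ww k = 1 := by
      rw [Ww, ← map_mul, HahnSeries.single_mul_single]
      simp
    rw [← map_pow, he, map_sub, map_one, APRoot_s_X, sub_mul, one_mul]
    congr 1
    rw [mul_right_comm, hw, one_mul]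

end MP7b0bad
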