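import Pool.Agent.Work.MP_7b0bad_ag.AP.Stmts

set_option autoImplicit false

/-!
Item APSpec: specialisation of a certificate
-/

namespace MP7b0bad

open Polynomial TensorProduct

/-- the specialisation `A ⊗ B → B` at the point `t` of `A` -/
noncomputable def APSpec_sig {k : Type} [Field k] {B : Type} [CommRing B] [Algebra k B]
    {A : Type} [CommRing A] [Algebra k A] (t : A →ₐ[k] k) : A ⊗[k] B →ₐ[k] B :=
  Algebra.TensorProduct.lift ((Algebra.ofId k B).comp t) (AlgHom.id k B)
    (fun _ _ => Commute.all _ _)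

theorem APSpec_sig_tmul {k : Type} [Field k] {B : Type} [CommRing B] [Algebra k B]
    {A : Type} [CommRing A] [Algebra k A] (t : A →ₐ[k] k) (c : A) (b : B) :
    APSpec_sig t (c ⊗ₜ[k] b) = algebraMap k B (t c) * b := by
  simp [APSpec_sig, Algebra.ofId_apply]

theorem APSpec_sig_one {k : Type} [Field k] {B : Type} [CommRing B] [Algebra k B]
    {A : Type} [CommRing A] [Algebra k A] (t : A →ₐ[k] k) (b : B) :
    APSpec_sig t ((1 : A) ⊗ₜ[k] b) = b := by
  rw [APSpec_sig_tmul, map_one, map_one, one_mul]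

theorem APSpec_sig_left {k : Type} [Field k] {B : Type} [CommRing B] [Algebra k B]
    {A : Type} [CommRing A] [Algebra k A] (t : A →ₐ[k] k) (c : A) :
    APSpec_sig t (c ⊗ₜ[k] (1 : B)) = algebraMap k B (t c) := by
  rw [APSpec_sig_tmul, mul_one]

theorem APSpec_khom {k : Type} [Field k] {B : Type} [CommRing B] [Algebra k[X] B] [Algebra k B]
    [IsScalarTower k k[X] B] (l : B →+* LaurentSeries k) (hl : KHom l) (c : k) :
    l (algebraMap k B c) = HahnSeries.C c := by
  rw [IsScalarTower.algebraMap_apply k k[X] B c, Polynomial.algebraMap_eq]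
  exact hl c

theorem APSpec_coeff {k : Type} [Field k] {B : Type} [CommRing B] [Algebra k[X] B] [Algebra k B]
    [IsScalarTower k k[X] B] {A : Type} [CommRing A] [Algebra k A] (t : A →ₐ[k] k)
    (l : B →+* LaurentSeries k) (lA : (A ⊗[k] B) →+* LaurentSeries A) (hl : KHom l)
    (hlA : IsLx l lA) (m : ℤ) (z : A ⊗[k] B) :
    (l (APSpec_sig t z)).coeff m = t ((lA z).coeff m) := by
  induction z using TensorProduct.induction_on with
  | zero => simp
  | tmul c b' =>
    rw [APSpec_sig_tmul, hlA, map_mul, map_mul, APSpec_khom l hl, AlgHom.commutes,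
      HahnSeries.C_mul_eq_smul]
    simp
  | add z w hz hw =>
    rw [map_add, map_add, HahnSeries.coeff_add, hz, hw, map_add, HahnSeries.coeff_add, map_add]

theorem prf_APSpec : APSpec := by
  intro k _ r B _ _ _ _ A _ _ i t y y' hy hy' ht ι _ b n f a hc
  refine ⟨APSpec_sig t f, fun m => APSpec_sig t (a m), ⟨?_, ?_⟩, ?_⟩
  · intro u
    obtain ⟨q, hq⟩ := hc.eq1 u
    refine ⟨fun α l => APSpec_sig t (q α l), ?_⟩
    have h := congrArg (APSpec_sig t) hq
    simp only [map_mul, map_sum, map_prod, map_sub, APSpec_sig_one, APSpec_sig_left, ht] at h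
    exact h
  · intro α l
    obtain ⟨q, hq⟩ := hc.eq2 α l
    refine ⟨fun u => APSpec_sig t (q u), ?_⟩
    have h := congrArg (APSpec_sig t) hq
    simp only [map_mul, map_sum, map_prod, map_sub, APSpec_sig_one, APSpec_sig_left, ht] at h
    exact h
  · intro l lA hl hlA m
    exact APSpec_coeff t l lA hl hlA m f

end MP7b0bad
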