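import Pool.Agent.Work.MP_7b0bad_ag.AP.Stmts

set_option autoImplicit false

namespace MP7b0bad

open Polynomial TensorProduct

theorem APSpr_sup {k : Type} [Field k] {K : Type} [Field K] [Algebra k K] {B : Type} [CommRing B]
    [Algebra k B] (z : K ⊗[k] B) : ∃ S : Finset K, ∀ A : Subalgebra k K, (∀ s ∈ S, s ∈ A) →
      ∃ z' : A ⊗[k] B, Algebra.TensorProduct.map A.val (AlgHom.id k B) z' = z := by
  classical
  induction z using TensorProduct.induction_on with
  | zero => exact ⟨∅, fun A _ => ⟨0, map_zero _⟩⟩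
  | tmul c b =>
    refine ⟨{c}, fun A hA => ⟨(⟨c, hA c (Finset.mem_singleton_self c)⟩ : A) ⊗ₜ[k] b, ?_⟩⟩
    rw [Algebra.TensorProduct.map_tmul]
    rfl
  | add x y hx hy =>
    obtain ⟨S1, h1⟩ := hx
    obtain ⟨S2, h2⟩ := hy
    refine ⟨S1 ∪ S2, fun A hA => ?_⟩
    obtain ⟨x', hx'⟩ := h1 A fun s hs => hA s (Finset.mem_union_left _ hs)
    obtain ⟨y', hy'⟩ := h2 A fun s hs => hA s (Finset.mem_union_right _ hs)
    exact ⟨x' + y', by rw [map_add, hx', hy']⟩

theorem APSpr_supF {k : Type} [Field k] {K : Type} [Field K] [Algebra k K] {B : Type} [CommRing B]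
    [Algebra k B] {J : Type} [Finite J] (z : J → K ⊗[k] B) : ∃ S : Finset K,
      ∀ A : Subalgebra k K, (∀ s ∈ S, s ∈ A) →
      ∃ z' : J → A ⊗[k] B, ∀ j, Algebra.TensorProduct.map A.val (AlgHom.id k B) (z' j) = z j := by
  classical
  haveI := Fintype.ofFinite J
  choose S hS using fun j => APSpr_sup (z j)
  refine ⟨Finset.univ.biUnion S, fun A hA => ?_⟩
  choose z' hz' using fun j => hS j A fun s hs =>
    hA s (Finset.mem_biUnion.mpr ⟨j, Finset.mem_univ j, hs⟩)
  exact ⟨z', hz'⟩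

theorem APSpr_inj {k : Type} [Field k] {K : Type} [Field K] [Algebra k K] {B : Type} [CommRing B]
    [Algebra k B] (A : Subalgebra k K) :
    Function.Injective (Algebra.TensorProduct.map A.val (AlgHom.id k B)) := by
  have h : Function.Injective (LinearMap.rTensor B A.val.toLinearMap) :=
    Module.Flat.rTensor_preserves_injective_linearMap _ Subtype.val_injective
  exact h

theorem prf_APSpr : APSpr := by
  classical
  intro k _ r K _ _ B _ _ _ _ y i hi ι _ b hb n f a hc Z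
  obtain ⟨e1, e2⟩ := hc
  choose q1 hq1 using e1
  choose q2 hq2 using e2
  obtain ⟨Sf, hSf⟩ := APSpr_sup f
  obtain ⟨Sa, hSa⟩ := APSpr_supF a
  obtain ⟨S1, hS1⟩ := APSpr_supF (fun t : ι × (Fin r → Fin n) × ι => q1 t.1 t.2.1 t.2.2)
  obtain ⟨S2, hS2⟩ := APSpr_supF (fun t : (Fin r → Fin n) × ι × ι => q2 t.1 t.2.1 t.2.2)
  set T : Finset K := Sf ∪ Sa ∪ S1 ∪ S2 ∪ Z ∪ Finset.univ.image (fun u => i (b u)) with hT
  set A : Subalgebra k K := Algebra.adjoin k (T : Set K) with hA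
  have hTA : ∀ s ∈ T, s ∈ A := fun s hs => Algebra.subset_adjoin hs
  have m1 : ∀ s ∈ Sf, s ∈ A := fun s hs => hTA s (by simp [hT, hs])
  have m2 : ∀ s ∈ Sa, s ∈ A := fun s hs => hTA s (by simp [hT, hs])
  have m3 : ∀ s ∈ S1, s ∈ A := fun s hs => hTA s (by simp [hT, hs])
  have m4 : ∀ s ∈ S2, s ∈ A := fun s hs => hTA s (by simp [hT, hs])
  have m5 : ∀ s ∈ Z, s ∈ A := fun s hs => hTA s (by simp [hT, hs])
  have m6 : ∀ u, i (b u) ∈ A := fun u => hTA _ (by simp [hT])
  obtain ⟨f', hf'⟩ := hSf A m1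
  obtain ⟨a', ha'⟩ := hSa A m2
  obtain ⟨p1, hp1⟩ := hS1 A m3
  obtain ⟨p2, hp2⟩ := hS2 A m4
  set iA : B →ₐ[k] K := { i with commutes' := hi } with hiA
  have hmem : ∀ x : B, iA x ∈ A := by
    intro x
    have hx : x ∈ Algebra.adjoin k (Set.range b) := by rw [hb.2]; exact Algebra.mem_top
    have h2 : Algebra.adjoin k (Set.range b) ≤ A.comap iA := by
      refine Algebra.adjoin_le ?_
      rintro _ ⟨u, rfl⟩
      exact m6 u
    exact h2 hx
  set i' : B →ₐ[k] A := iA.codRestrict A hmem with hi'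
  have hi'c : ∀ x, ((i' x : A) : K) = i x := fun x => rfl
  have hinj := APSpr_inj (B := B) A
  have key : ∀ (c : A) (x : B), Algebra.TensorProduct.map A.val (AlgHom.id k B) (c ⊗ₜ[k] x) =
      (c : K) ⊗ₜ[k] x := by
    intro c x
    rw [Algebra.TensorProduct.map_tmul]
    rfl
  refine ⟨A, i'.toRingHom, f', a', ⟨T, rfl⟩, m5, hi'c, hf', ⟨fun u => ?_, fun α l => ?_⟩⟩
  · refine ⟨fun α l => p1 (u, α, l), hinj ?_⟩
    have h := hq1 u
    rw [map_mul, hf', key, map_sum]
    simp only [map_sum, map_mul, map_prod, map_sub, key, ha', hp1]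
    exact h
  · refine ⟨fun u => p2 (α, l, u), hinj ?_⟩
    have h := hq2 α l
    simp only [map_sum, map_mul, map_prod, map_sub, key, ha', hp2, hf']
    exact h

end MP7b0bad
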