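import Pool.Agent.Work.MP_7b0bad_ag.AP.Stmts

set_option autoImplicit false

/-!
# Item APTh: the homomorphism `K ⊗ B → Map(G, F)` and its injectivity
-/

namespace MP7b0bad

open Polynomial TensorProduct

theorem APTh_KF_C {k : Type} [Field k] (c : k) :
    KF k (HahnSeries.C c) = HahnSeries.C (HahnSeries.C c) := by
  ext m n
  change ((HahnSeries.map (HahnSeries.C c) (HahnSeries.C : k →+* LaurentSeries k)).coeff m).coeff n =
    _
  by_cases hm : m = 0
  · subst hm
    simp
  · simp [hm]

theorem APTh_coeff {k : Type} [Field k] (a b : LaurentSeries k) (m n : ℤ) :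
    ((KF k a * HahnSeries.C b).coeff m).coeff n = a.coeff m * b.coeff n := by
  have h1 : (KF k a).coeff m = HahnSeries.C (a.coeff m) := rfl
  rw [mul_comm, HahnSeries.C_mul_eq_smul, HahnSeries.coeff_smul, smul_eq_mul, h1, mul_comm,
    HahnSeries.C_mul_eq_smul, HahnSeries.coeff_smul, smul_eq_mul]

theorem APTh_j_smul {k : Type} [Field k] {B : Type} [CommRing B] [Algebra k[X] B] [Algebra k B]
    [IsScalarTower k k[X] B] (j : B →+* LaurentSeries k) (hj : KHom j) (c : k) (b : B) :
    j (c • b) = HahnSeries.C c * j b := by
  rw [Algebra.smul_def, map_mul, IsScalarTower.algebraMap_apply k k[X] B c]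
  have : algebraMap k k[X] c = C c := rfl
  rw [this, hj c]

/-- the homomorphism of a tensor product defined by two ring homomorphisms -/
theorem APTh_lift {k : Type} [Field k] {A B D : Type} [CommRing A] [CommRing B] [CommRing D]
    [Algebra k A] [Algebra k B] (f : A →+* D) (g : B →+* D)
    (h : ∀ c : k, f (algebraMap k A c) = g (algebraMap k B c)) :
    ∃ th : (A ⊗[k] B) →+* D, ∀ a b, th (a ⊗ₜ[k] b) = f a * g b := by
  let _ : Algebra k D := (f.comp (algebraMap k A)).toAlgebra
  let f1 : A →ₐ[k] D := { f with commutes' := fun _ => rfl }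
  let g1 : B →ₐ[k] D := { g with commutes' := fun c => (h c).symm }
  refine ⟨(Algebra.TensorProduct.lift f1 g1 (fun _ _ => Commute.all _ _) :
    (A ⊗[k] B) →ₐ[k] D), fun a b => ?_⟩
  exact Algebra.TensorProduct.lift_tmul f1 g1 (fun _ _ => Commute.all _ _) a b

theorem prf_APTh : APTh := by
  intro k _ G _ B _ _ _ _ _ hG j hj hinj
  let f1 : Kf k →+* (G → Fk k) :=
    { toFun := fun c _ => KF k (kfl k c)
      map_one' := by
        funext g
        simp
      map_mul' := fun a b => by
        funext g
        simp
      map_zero' := by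
        funext g
        simp
      map_add' := fun a b => by
        funext g
        simp }
  let f2 : B →+* (G → Fk k) :=
    { toFun := fun b g => HahnSeries.C (j (g⁻¹ • b))
      map_one' := by
        funext g
        simp
      map_mul' := fun a b => by
        funext g
        simp [smul_mul']
      map_zero' := by
        funext g
        simp
      map_add' := fun a b => by
        funext g
        simp [smul_add] }
  obtain ⟨th, hth0⟩ := APTh_lift (k := k) f1 f2 (by
    intro r
    funext g
    have h1 : kfl k (algebraMap k (Kf k) r) = HahnSeries.C r :=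
      LaurentSeries.algebraMap_apply k r
    have h2 : algebraMap k B r = algebraMap k[X] B (C r) :=
      IsScalarTower.algebraMap_apply k k[X] B r
    change KF k (kfl k (algebraMap k (Kf k) r)) = HahnSeries.C (j (g⁻¹ • algebraMap k B r))
    rw [h1, APTh_KF_C, h2, hG.comm, hj])
  have hth : IsTh (G := G) j th := by
    intro c b g
    rw [hth0]
    rfl
  refine ⟨th, hth, ?_⟩
  rw [injective_iff_map_eq_zero]
  intro z hz
  have hz1 : th z 1 = 0 := congrFun hz 1
  let β := Module.Basis.ofVectorSpace k B
  obtain ⟨c, hc⟩ := TensorProduct.eq_repr_basis_right β z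
  have h2 : c.sum (fun i m => KF k (kfl k m) * HahnSeries.C (j (β i))) = 0 := by
    rw [← hz1, ← hc, Finsupp.sum, Finsupp.sum, map_sum, Finset.sum_apply]
    refine Finset.sum_congr rfl fun i _ => ?_
    have h3 := hth (c i) (β i) 1
    rw [inv_one, one_smul] at h3
    exact h3.symm
  have h4 : ∀ m : ℤ, ∑ i ∈ c.support, ((kfl k (c i)).coeff m) • β i = 0 := by
    intro m
    apply hinj
    rw [map_zero, map_sum]
    ext n
    have h5 := congrArg (fun x : Fk k => (x.coeff m).coeff n) h2
    simp only [Finsupp.sum, HahnSeries.coeff_sum, HahnSeries.coeff_zero] at h5 ⊢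
    rw [← h5]
    refine Finset.sum_congr rfl fun i _ => ?_
    rw [APTh_coeff, APTh_j_smul j hj, HahnSeries.C_mul_eq_smul, HahnSeries.coeff_smul, smul_eq_mul]
  have h6 : ∀ i ∈ c.support, c i = 0 := by
    intro i hi
    have h7 : kfl k (c i) = 0 := by
      ext m
      have h8 := linearIndependent_iff'.1 β.linearIndependent c.support
        (fun i => (kfl k (c i)).coeff m) (h4 m) i hi
      simpa using h8
    exact (map_eq_zero (kfl k)).1 h7
  rw [← hc, Finsupp.sum]
  refine Finset.sum_eq_zero fun i hi => ?_
  rw [h6 i hi, TensorProduct.zero_tmul]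

end MP7b0bad
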