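import Pool.Agent.Work.MP_7b0bad_ag.AP.Stmts

set_option autoImplicit false

namespace MP7b0bad

open Polynomial TensorProduct

/-- the inverse of `w - T` -/
noncomputable def APUnit_v (k : Type) [Field k] : Fk k :=
  HahnSeries.ofPowerSeries ℤ (LaurentSeries k)
    (PowerSeries.mk fun j => HahnSeries.single (-((j : ℤ) + 1)) (1 : k))

theorem APUnit_v_coeff_nat (k : Type) [Field k] (j : ℕ) :
    (APUnit_v k).coeff (j : ℤ) = HahnSeries.single (-((j : ℤ) + 1)) (1 : k) := by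
  rw [APUnit_v, HahnSeries.ofPowerSeries_apply_coeff, PowerSeries.coeff_mk]

theorem APUnit_v_coeff_neg (k : Type) [Field k] (j : ℤ) (hj : j < 0) :
    (APUnit_v k).coeff j = 0 := by
  rw [APUnit_v, HahnSeries.ofPowerSeries_apply]
  apply HahnSeries.embDomain_of_notMem_range
  rintro ⟨m, hm⟩
  have h2 : ((m : ℕ) : ℤ) = j := hm
  omega

theorem APUnit_C_mem (k : Type) [Field k] (m : ℤ) :
    (HahnSeries.C (HahnSeries.single m (1 : k)) : Fk k) ∈ Ss k := by
  refine ⟨m, fun j i hi => ?_⟩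
  rw [HahnSeries.C_apply, HahnSeries.coeff_single]
  split_ifs
  · rw [HahnSeries.coeff_single_of_ne (by omega)]
  · simp

theorem APUnit_v_mem (k : Type) [Field k] : APUnit_v k ∈ Ss k := by
  refine ⟨0, fun j i hi => ?_⟩
  by_cases hj : j < 0
  · rw [APUnit_v_coeff_neg k j hj]; simp
  · obtain ⟨n, rfl⟩ := Int.eq_ofNat_of_zero_le (not_lt.mp hj)
    rw [APUnit_v_coeff_nat, HahnSeries.coeff_single_of_ne (by omega)]

theorem APUnit_mul (k : Type) [Field k] : (Ww k - Tt k) * APUnit_v k = 1 := by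
  refine HahnSeries.ext ?_
  funext n
  have h1 : (Ww k * APUnit_v k).coeff n =
      HahnSeries.single (1 : ℤ) (1 : k) * (APUnit_v k).coeff n := by
    rw [Ww, HahnSeries.C_mul_eq_smul, HahnSeries.coeff_smul, smul_eq_mul]
  have h2 : (Tt k * APUnit_v k).coeff n = (APUnit_v k).coeff (n - 1) := by
    have := HahnSeries.coeff_single_mul_add (r := (1 : LaurentSeries k)) (x := APUnit_v k)
      (a := n - 1) (b := (1 : ℤ))
    rw [show n - 1 + 1 = n by ring, one_mul] at this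
    rw [Tt, this]
  rw [sub_mul, HahnSeries.coeff_sub, h1, h2, HahnSeries.coeff_one]
  rcases lt_trichotomy n 0 with hn | hn | hn
  · rw [APUnit_v_coeff_neg k n hn, APUnit_v_coeff_neg k (n - 1) (by omega), if_neg (by omega)]
    simp
  · subst hn
    rw [show (0 : ℤ) = ((0 : ℕ) : ℤ) by rfl, APUnit_v_coeff_nat,
      APUnit_v_coeff_neg k _ (by omega), if_pos rfl, HahnSeries.single_mul_single]
    simp
  · obtain ⟨m, rfl⟩ : ∃ m : ℕ, n = ((m + 1 : ℕ) : ℤ) := ⟨(n - 1).toNat, by omega⟩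
    rw [APUnit_v_coeff_nat, show ((m + 1 : ℕ) : ℤ) - 1 = (m : ℤ) by push_cast; ring,
      APUnit_v_coeff_nat, if_neg (by omega), HahnSeries.single_mul_single, one_mul,
      show (1 : ℤ) + -((((m + 1 : ℕ) : ℤ)) + 1) = -((m : ℤ) + 1) by push_cast; ring, sub_self]

theorem prf_APUnit : APUnit := by
  intro k _
  refine ⟨APUnit_C_mem k 1, ⟨HahnSeries.C (HahnSeries.single (-1 : ℤ) (1 : k)),
    APUnit_C_mem k (-1), ?_⟩, APUnit_v k, APUnit_v_mem k, APUnit_mul k⟩
  rw [Ww, ← map_mul, HahnSeries.single_mul_single]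
  simp

end MP7b0bad
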