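import Pool.Agent.Work.MP_7b0bad_ag.AP.Stmts

set_option autoImplicit false

namespace MP7b0bad

open Polynomial TensorProduct

theorem APVal_sum {k : Type} [Field k] {ι : Type} (s : Finset ι) (g : ι → LaurentSeries k)
    (N : WithTop ℤ) (h : ∀ i ∈ s, N ≤ (g i).orderTop) : N ≤ (∑ i ∈ s, g i).orderTop := by
  have := (HahnSeries.addVal ℤ k).map_le_sum (s := s) (f := g) (g := N) (by
    intro i hi
    simpa [HahnSeries.addVal_apply] using h i hi)
  simpa [HahnSeries.addVal_apply] using this

theorem APVal_prod {k : Type} [Field k] {ι : Type} (s : Finset ι) (g : ι → LaurentSeries k)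
    (μ : ℤ) (h : ∀ i ∈ s, (μ : WithTop ℤ) ≤ (g i).orderTop) :
    (((s.card : ℤ) * μ : ℤ) : WithTop ℤ) ≤ (∏ i ∈ s, g i).orderTop := by
  classical
  induction s using Finset.induction_on with
  | empty => simp
  | insert a s ha ih =>
    rw [Finset.prod_insert ha, Finset.card_insert_of_notMem ha, HahnSeries.orderTop_mul]
    have h1 := h a (Finset.mem_insert_self _ _)
    have h2 := ih (fun i hi => h i (Finset.mem_insert_of_mem hi))
    have h3 : (((s.card + 1 : ℕ) : ℤ) * μ) = μ + (s.card : ℤ) * μ := by push_cast; ring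
    rw [h3, WithTop.coe_add]
    exact add_le_add h1 h2

theorem APVal_prod_const {k : Type} [Field k] (r : ℕ) (g : LaurentSeries k)
    (μ : ℤ) (h : (μ : WithTop ℤ) = g.orderTop) :
    (((r : ℤ) * μ : ℤ) : WithTop ℤ) = (∏ _i : Fin r, g).orderTop := by
  induction r with
  | zero => simp
  | succ r ih =>
    rw [Fin.prod_univ_succ, HahnSeries.orderTop_mul, ← ih, ← h, ← WithTop.coe_add]
    congr 1
    push_cast
    ring

theorem APVal_algMap {k : Type} [Field k] {B : Type} [CommRing B] [Algebra k[X] B] [Algebra k B]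
    [IsScalarTower k k[X] B] (c : k) : algebraMap k B c = algebraMap k[X] B (C c) := by
  rw [IsScalarTower.algebraMap_apply k k[X] B]
  rfl

/-- the orders of the elements `b u - y (b u)` -/
theorem APVal_hit (hOrd : APOrd) {k : Type} [Field k] {G : Type} [Group G] [Finite G]
    {B : Type} [CommRing B] [Algebra k[X] B] [Algebra k B] [IsScalarTower k k[X] B]
    [MulSemiringAction G B] (hB : GalAlg k[X] G B) (y : B →+* k) (hy : Pt y)
    {ι : Type} (b : ι → B) (hb : Gen k b) (a : k) (j : B →+* LaurentSeries k) (hj : Cpl a j) :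
    (∀ u, ((hit y j : ℤ) : WithTop ℤ) ≤ (j (b u - algebraMap k B (y (b u)))).orderTop) ∧
    ∃ u, (j (b u - algebraMap k B (y (b u)))).orderTop = ((hit y j : ℤ) : WithTop ℤ) := by
  obtain ⟨hneg, ⟨z, hz, hz0, hza⟩, -⟩ := hOrd k G B hB a j hj
  have hc : ∀ (w : B →+* k), Pt w → ∀ c : k, w (algebraMap k B c) = c := by
    intro w hw c
    rw [APVal_algMap]
    exact hw c
  have hjC : ∀ c : k, j (algebraMap k B c) = HahnSeries.C c := by
    intro c
    rw [APVal_algMap]
    exact hj.1 c
  have h0 : ∀ u, (j (b u - algebraMap k B (y (b u)))).coeff 0 = z (b u) - y (b u) := by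
    intro u
    rw [hz0, map_sub, hc z hz]
  unfold hit
  split_ifs with h
  · constructor
    · intro u
      rw [HahnSeries.le_orderTop_iff_forall]
      intro n hn
      have hn1 : n < 1 := by exact_mod_cast hn
      rcases lt_or_eq_of_le (Int.lt_add_one_iff.mp (by simpa using hn1) : n ≤ 0) with h1 | h1
      · exact hneg _ n h1
      · subst h1
        rw [h0, ← hz0, h, sub_self]
    · obtain ⟨u, hu⟩ := hb.1
      refine ⟨u, ?_⟩
      have hyX : y (b u) = a := by
        rw [← h, hz0, hu, hza]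
      have : j (b u - algebraMap k B (y (b u))) = HahnSeries.single (1 : ℤ) (1 : k) := by
        rw [map_sub, hjC, hyX, hu, hj.2]
        ring
      rw [this, HahnSeries.orderTop_single one_ne_zero]
  · have hnn : ∀ x : B, ((0 : ℤ) : WithTop ℤ) ≤ (j x).orderTop := by
      intro x
      rw [HahnSeries.le_orderTop_iff_forall]
      intro n hn
      exact hneg _ n (by exact_mod_cast hn)
    refine ⟨fun u => hnn _, ?_⟩
    by_contra hcon
    push Not at hcon
    apply h
    have h2 : ∀ u, z (b u) = y (b u) := by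
      intro u
      have h3 := lt_of_le_of_ne (hnn (b u - algebraMap k B (y (b u)))) (Ne.symm (hcon u))
      have h4 := HahnSeries.coeff_eq_zero_of_lt_orderTop h3
      rw [h0] at h4
      exact sub_eq_zero.mp h4
    let zA : B →ₐ[k] k := { z with commutes' := fun c => hc z hz c }
    let yA : B →ₐ[k] k := { y with commutes' := fun c => hc y hy c }
    have h5 : zA = yA := by
      apply AlgHom.ext_of_adjoin_eq_top hb.2
      rintro _ ⟨u, rfl⟩
      exact h2 u
    intro x
    rw [hz0]
    exact DFunLike.congr_fun h5 x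

theorem prf_APVal (hOrd : APOrd) : APVal := by
  intro k _ r G _ _ B _ _ _ _ _ _ hB y y' hy hy' ι _ b hb n f c hf hcert a j hj
  obtain ⟨hneg, -, hinj⟩ := hOrd k G B hB a j hj
  have hinj := hinj inferInstance
  have hnn : ∀ x : B, ((0 : ℤ) : WithTop ℤ) ≤ (j x).orderTop := by
    intro x
    rw [HahnSeries.le_orderTop_iff_forall]
    intro n hn
    exact hneg _ n (by exact_mod_cast hn)
  have hne : ∀ x : B, x ≠ 0 → j x ≠ 0 := fun x hx h => hx (hinj (by rw [h, map_zero]))
  obtain ⟨hy1, u1, hu1⟩ := APVal_hit hOrd hB y hy b hb a j hj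
  obtain ⟨hy2, u2, hu2⟩ := APVal_hit hOrd hB y' hy' b hb a j hj
  set h1 : ℤ := hit y j with hh1
  set h2 : ℤ := hit y' j with hh2
  have hF : ((j f).order : WithTop ℤ) = (j f).orderTop :=
    HahnSeries.order_eq_orderTop_of_ne_zero (hne f hf)
  have hwne : j (wat y) ≠ 0 := by
    intro h
    have h3 : (j (wat y)).coeff 1 = 1 := by
      unfold wat
      rw [map_sub, map_sub, hj.2, hj.1]
      simp [HahnSeries.coeff_sub, HahnSeries.coeff_add, HahnSeries.C_apply,
        HahnSeries.coeff_single_of_ne]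
    rw [h] at h3
    simp at h3
  have hT : ((j (wat y)).order : WithTop ℤ) = (j (wat y)).orderTop :=
    HahnSeries.order_eq_orderTop_of_ne_zero hwne
  set F : ℤ := (j f).order with hFd
  set T : ℤ := (j (wat y)).order with hTd
  -- the minimum of the orders of the `c m`
  obtain ⟨q1, hq1⟩ := hcert.eq1 u1
  have hlhs : (j (f * (b u1 - algebraMap k B (y (b u1))))).orderTop = ((F + h1 : ℤ) : WithTop ℤ) := by
    rw [map_mul, HahnSeries.orderTop_mul, hu1, ← hF, WithTop.coe_add]
  obtain ⟨μ, hμ, α, hα⟩ : ∃ μ : ℤ, (∀ m, (μ : WithTop ℤ) ≤ (j (c m)).orderTop) ∧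
      ∃ α : Fin r → Fin n, (j (∏ t, c (α t))).orderTop = (((r : ℤ) * μ : ℤ) : WithTop ℤ) := by
    rcases Nat.eq_zero_or_pos r with hr | hr
    · subst hr
      exact ⟨0, fun m => hnn _, fun i => i.elim0, by simp⟩
    · have hex : ∃ m, c m ≠ 0 := by
        by_contra hcon
        push Not at hcon
        have : f * (b u1 - algebraMap k B (y (b u1))) = 0 := by
          rw [hq1]
          refine Finset.sum_eq_zero fun α _ => Finset.sum_eq_zero fun l _ => ?_
          rw [Finset.prod_eq_zero (Finset.mem_univ (⟨0, hr⟩ : Fin r)) (hcon _)]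
          ring
        rw [this, map_zero, HahnSeries.orderTop_zero] at hlhs
        exact absurd hlhs (WithTop.coe_ne_top).symm
      classical
      obtain ⟨m0, hm0, hmin⟩ := Finset.exists_min_image
        (Finset.univ.filter (fun m : Fin n => c m ≠ 0)) (fun m => (j (c m)).order)
        (by obtain ⟨m, hm⟩ := hex; exact ⟨m, by simp [hm]⟩)
      have hm0' : c m0 ≠ 0 := by simpa using hm0
      refine ⟨(j (c m0)).order, ?_, fun _ => m0, ?_⟩
      · intro m
        by_cases hm : c m = 0
        · simp [hm]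
        · rw [← HahnSeries.order_eq_orderTop_of_ne_zero (hne _ hm)]
          exact_mod_cast hmin m (by simp [hm])
      · rw [map_prod]
        exact (APVal_prod_const r _ _
          (HahnSeries.order_eq_orderTop_of_ne_zero (hne _ hm0'))).symm
  -- first inequality
  have key1 : ((T + (r : ℤ) * μ + h2 : ℤ) : WithTop ℤ) ≤ ((F + h1 : ℤ) : WithTop ℤ) := by
    rw [← hlhs, hq1, map_sum]
    refine APVal_sum _ _ _ fun β _ => ?_
    rw [map_sum]
    refine APVal_sum _ _ _ fun l _ => ?_
    rw [map_mul, map_mul, map_mul, HahnSeries.orderTop_mul, HahnSeries.orderTop_mul,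
      HahnSeries.orderTop_mul, ← hT]
    have h5 : (((r : ℤ) * μ : ℤ) : WithTop ℤ) ≤ (j (∏ t, c (β t))).orderTop := by
      rw [map_prod]
      have := APVal_prod (k := k) Finset.univ (fun t : Fin r => j (c (β t))) μ
        (fun i _ => hμ _)
      simpa using this
    have h6 := hy2 l
    have h7 := hnn (q1 β l)
    have h8 : ((T + (r : ℤ) * μ + h2 : ℤ) : WithTop ℤ) =
        (T : WithTop ℤ) + (((r : ℤ) * μ : ℤ) : WithTop ℤ) + (h2 : WithTop ℤ) + ((0 : ℤ) : WithTop ℤ) := by
      rw [WithTop.coe_add, WithTop.coe_add]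
      simp
    rw [h8]
    exact add_le_add (add_le_add (add_le_add le_rfl h5) h6) h7
  -- second inequality
  obtain ⟨q2, hq2⟩ := hcert.eq2 α u2
  have hlhs2 : (j (wat y * (∏ t, c (α t)) * (b u2 - algebraMap k B (y' (b u2))))).orderTop =
      ((T + (r : ℤ) * μ + h2 : ℤ) : WithTop ℤ) := by
    rw [map_mul, map_mul, HahnSeries.orderTop_mul, HahnSeries.orderTop_mul, hu2, hα, ← hT,
      WithTop.coe_add, WithTop.coe_add]
  have key2 : ((F + h1 : ℤ) : WithTop ℤ) ≤ ((T + (r : ℤ) * μ + h2 : ℤ) : WithTop ℤ) := by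
    rw [← hlhs2, hq2, map_sum]
    refine APVal_sum _ _ _ fun u _ => ?_
    rw [map_mul, map_mul, HahnSeries.orderTop_mul, HahnSeries.orderTop_mul, ← hF]
    have h6 := hy1 u
    have h7 := hnn (q2 u)
    have h8 : ((F + h1 : ℤ) : WithTop ℤ) =
        (F : WithTop ℤ) + (h1 : WithTop ℤ) + ((0 : ℤ) : WithTop ℤ) := by
      rw [WithTop.coe_add]
      simp
    rw [h8]
    exact add_le_add (add_le_add le_rfl h6) h7
  have k1 : T + (r : ℤ) * μ + h2 ≤ F + h1 := by exact_mod_cast key1
  have k2 : F + h1 ≤ T + (r : ℤ) * μ + h2 := by exact_mod_cast key2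
  exact ⟨μ, by linarith⟩

end MP7b0bad
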