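import Pool.Agent.Work.MP_7b0bad_ag.AP.APBas
import Pool.Agent.Work.MP_7b0bad_ag.AP.APC
import Pool.Agent.Work.MP_7b0bad_ag.AP.APCpl
import Pool.Agent.Work.MP_7b0bad_ag.AP.APExt
import Pool.Agent.Work.MP_7b0bad_ag.AP.APGen
import Pool.Agent.Work.MP_7b0bad_ag.AP.APGn
import Pool.Agent.Work.MP_7b0bad_ag.AP.APInt
import Pool.Agent.Work.MP_7b0bad_ag.AP.APK
import Pool.Agent.Work.MP_7b0bad_ag.AP.APLD
import Pool.Agent.Work.MP_7b0bad_ag.AP.APLat
import Pool.Agent.Work.MP_7b0bad_ag.AP.APLau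
import Pool.Agent.Work.MP_7b0bad_ag.AP.APMS
import Pool.Agent.Work.MP_7b0bad_ag.AP.APOrd
import Pool.Agent.Work.MP_7b0bad_ag.AP.APPt
import Pool.Agent.Work.MP_7b0bad_ag.AP.APRoot
import Pool.Agent.Work.MP_7b0bad_ag.AP.APSpec
import Pool.Agent.Work.MP_7b0bad_ag.AP.APSpr
import Pool.Agent.Work.MP_7b0bad_ag.AP.APTh
import Pool.Agent.Work.MP_7b0bad_ag.AP.APUnit
import Pool.Agent.Work.MP_7b0bad_ag.AP.APVal
import Pool.Agent.Work.MP_7b0bad_ag.Bd.B12

set_option autoImplicit false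

/-!
# Block AP: assembly
-/

namespace MP7b0bad

theorem all_APBas : APBas := prf_APBas all_QGL all_QFree
theorem all_APLat : APLat := prf_APLat all_APBas all_PB
theorem all_APInt : APInt := prf_APInt all_APBas prf_A8
theorem all_APLD : APLD := prf_APLD all_APBas all_LD prf_APTh
theorem all_APK : APK :=
  prf_APK prf_APRoot prf_APUnit prf_APTh prf_APMS all_APLat all_APInt all_APLD prf_APGn
theorem all_APVal : APVal := prf_APVal prf_APOrd
theorem all_APC : APC :=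
  prf_APC prf_APCpl prf_APOrd prf_APPt prf_APGen all_APK prf_APSpr prf_APExt prf_APLau
    prf_APSpec all_APVal

end MP7b0bad
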