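import Pool.Agent.Work.MP_7b0bad_ag.AP.Stmts

set_option autoImplicit false

/-! # Functions on `G` in terms of a basis of `B` -/

namespace MP7b0bad

open Polynomial TensorProduct

/-- the trivial action of the trivial group -/
@[reducible] def APBas_act (C : Type) [CommRing C] : MulSemiringAction Unit C where
  smul _ x := x
  one_smul _ := rfl
  mul_smul _ _ _ := rfl
  smul_zero _ := rfl
  smul_add _ _ _ := rfl
  smul_one _ := rfl
  smul_mul _ _ _ := rfl

/-- coordinates of arbitrary functions -/
theorem APBas_coord (hGL : QGL) {R C : Type} [CommRing R] [CommRing C] {G : Type} [Group G]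
    [Finite G] {B : Type} [CommRing B] [Algebra R B] [MulSemiringAction G B] (ψ : B →+* C)
    (hG : GalAlg R G B) (n : ℕ) (β : Module.Basis (Fin n) R B) (v : G → C) :
    ∃! c : Fin n → C, ∀ γ : G, v γ = ∑ l, c l * ψ (γ⁻¹ • β l) := by
  letI := APBas_act C
  have h := hGL R C (ψ.comp (algebraMap R B)) G Unit 1 B C ψ hG (fun h a => rfl)
    (fun a b hab => hab) (fun c _ => ⟨c, rfl⟩) (fun a => rfl)
    (fun h b => by
      have h1 : ((1 : Unit →* G) h) = 1 := rfl
      rw [h1, one_smul]
      rfl) n β v
    (fun γ h => by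
      have h1 : ((1 : Unit →* G) h) = 1 := rfl
      rw [h1, mul_one]
      rfl)
  exact h

theorem APBas_C_mem {k : Type} [Field k] (z : LaurentSeries k)
    (hz : ∀ n : ℤ, n < 0 → z.coeff n = 0) : (HahnSeries.C z : Fk k) ∈ Rr k := by
  intro m i hi
  rw [HahnSeries.C_apply, HahnSeries.coeff_single]
  split_ifs
  · exact hz i hi
  · simp

theorem APBas_Ss {k : Type} [Field k] {B : Type} [CommRing B] [Algebra k[X] B] (a : k)
    (j : B →+* LaurentSeries k) (hj : Cpl a j) (f : k[X]) :
    (HahnSeries.C (j (algebraMap k[X] B f)) : Fk k) ∈ Ss k := by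
  induction f using Polynomial.induction_on with
  | C c =>
    rw [hj.1 c]
    refine ⟨0, fun m i hi => ?_⟩
    rw [HahnSeries.C_apply, HahnSeries.coeff_single]
    split_ifs
    · rw [HahnSeries.C_apply, HahnSeries.coeff_single, if_neg (by omega)]
    · simp
  | add f g hf hg =>
    rw [map_add, map_add, map_add]
    exact (Ss k).add_mem hf hg
  | monomial n c ih =>
    rw [pow_succ, ← mul_assoc, map_mul, map_mul, map_mul]
    refine (Ss k).mul_mem ih ?_
    rw [hj.2]
    refine ⟨1, fun m i hi => ?_⟩
    rw [HahnSeries.C_apply, HahnSeries.coeff_single]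
    split_ifs
    · rw [HahnSeries.coeff_add, HahnSeries.C_apply, HahnSeries.coeff_single,
        HahnSeries.coeff_single, if_neg (by omega), if_neg (by omega), add_zero]
    · simp

theorem prf_APBas (hGL : QGL) (hF : QFree) : APBas := by
  classical
  intro k _ G _ _ B _ _ _ hG a j hj hj0
  have hfree := hF k G B hG
  have hfin := gal_finite hG
  have β := Module.finBasis k[X] B
  refine ⟨_, β, ?_, ?_, ?_⟩
  · intro v
    exact APBas_coord hGL ((HahnSeries.C : LaurentSeries k →+* Fk k).comp j) hG _ β v
  · intro v hv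
    obtain ⟨c, hc, -⟩ := APBas_coord hGL
      (((HahnSeries.C : LaurentSeries k →+* Fk k).comp j).codRestrict (Rr k)
        (fun b => APBas_C_mem _ (hj0 b))) hG _ β (fun g => (⟨v g, hv g⟩ : Rr k))
    refine ⟨fun l => (c l : Fk k), fun l => (c l).2, fun g => ?_⟩
    have h1 := congrArg Subtype.val (hc g)
    simpa using h1
  · rintro v ⟨m, s, b, hs, hv⟩
    refine ⟨fun l => ∑ i, s i * HahnSeries.C (j (algebraMap k[X] B (β.repr (b i) l))),
      fun l => (Ss k).sum_mem fun i _ => (Ss k).mul_mem (hs i) (APBas_Ss a j hj _), fun g => ?_⟩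
    rw [hv g]
    simp only [Finset.sum_mul]
    rw [Finset.sum_comm]
    refine Finset.sum_congr rfl fun i _ => ?_
    have h1 : b i = ∑ l, algebraMap k[X] B (β.repr (b i) l) * β l := by
      conv_lhs => rw [← β.sum_repr (b i)]
      exact Finset.sum_congr rfl fun l _ => by rw [Algebra.smul_def]
    have h2 : g⁻¹ • b i = ∑ l, algebraMap k[X] B (β.repr (b i) l) * (g⁻¹ • β l) := by
      conv_lhs => rw [h1]
      rw [Finset.smul_sum]
      exact Finset.sum_congr rfl fun l _ => by rw [smul_mul', hG.comm]
    rw [h2, map_sum, map_sum, Finset.mul_sum]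
    exact Finset.sum_congr rfl fun l _ => by rw [map_mul, map_mul, mul_assoc]

end MP7b0bad
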