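import Pool.Agent.Work.MP_7b0bad_ag.AP.Stmts

set_option autoImplicit false

/-!
# Item APLau: the homomorphisms `A ⊗ B → A((t))`
-/

namespace MP7b0bad

open Polynomial TensorProduct

section APLau

variable {k : Type} [Field k] {B : Type} [CommRing B] [Algebra k[X] B] [Algebra k B]
  [IsScalarTower k k[X] B]

/-- coefficientwise base change of Laurent series -/
noncomputable def APLau_map (k A : Type) [Field k] [CommRing A] [Algebra k A] :
    LaurentSeries k →+* LaurentSeries A where
  toFun x := HahnSeries.map x (algebraMap k A)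
  map_one' := by
    rw [← HahnSeries.C_one, HahnSeries.map_C, map_one, HahnSeries.C_one]
  map_mul' a b := HahnSeries.map_mul (algebraMap k A).toNonUnitalRingHom
  map_zero' := by
    ext n
    simp
  map_add' a b := by
    ext n
    simp

theorem APLau_map_coeff (A : Type) [CommRing A] [Algebra k A] (x : LaurentSeries k) (n : ℤ) :
    (APLau_map k A x).coeff n = algebraMap k A (x.coeff n) := rfl

/-- a copy of `LaurentSeries A` with one canonical algebra structure -/
def APLau_T (A : Type) [CommRing A] : Type := LaurentSeries A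

noncomputable instance APLau_instRing (A : Type) [CommRing A] : CommRing (APLau_T A) :=
  inferInstanceAs (CommRing (LaurentSeries A))

noncomputable instance APLau_instAlg (k A : Type) [Field k] [CommRing A] [Algebra k A] :
    Algebra k (APLau_T A) :=
  RingHom.toAlgebra ((HahnSeries.C : A →+* LaurentSeries A).comp (algebraMap k A))

/-- constants as an algebra homomorphism -/
noncomputable def APLau_C (k A : Type) [Field k] [CommRing A] [Algebra k A] :
    A →ₐ[k] APLau_T A where
  toRingHom := (HahnSeries.C : A →+* LaurentSeries A)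
  commutes' _ := rfl

/-- the base change of `l` -/
noncomputable def APLau_l (A : Type) [CommRing A] [Algebra k A] (l : B →+* LaurentSeries k)
    (hl : KHom l) : B →ₐ[k] APLau_T A where
  toRingHom := (APLau_map k A).comp l
  commutes' c := by
    have h1 : algebraMap k B c = algebraMap k[X] B (C c) := by
      rw [IsScalarTower.algebraMap_apply k k[X] B]
      rfl
    show APLau_map k A (l (algebraMap k B c)) = HahnSeries.C (algebraMap k A c)
    rw [h1, hl c]
    exact HahnSeries.map_C c (algebraMap k A)

theorem APLau_ex (l : B →+* LaurentSeries k) (hl : KHom l) (A : Type) [CommRing A] [Algebra k A] :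
    ∃ lA : (A ⊗[k] B) →+* LaurentSeries A, IsLx l lA := by
  refine ⟨(Algebra.TensorProduct.productMap (APLau_C k A) (APLau_l A l hl)).toRingHom, ?_⟩
  intro c b n
  have h1 : (Algebra.TensorProduct.productMap (APLau_C k A) (APLau_l A l hl)).toRingHom
      (c ⊗ₜ[k] b) = (HahnSeries.C c * APLau_map k A (l b) : LaurentSeries A) :=
    Algebra.TensorProduct.productMap_apply_tmul _ _ _ _
  have h2 : ((HahnSeries.C c * APLau_map k A (l b) : LaurentSeries A)).coeff n =
      c * algebraMap k A ((l b).coeff n) := by
    rw [HahnSeries.C_mul_eq_smul, HahnSeries.coeff_smul, APLau_map_coeff, smul_eq_mul]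
  exact (congrArg (fun z : LaurentSeries A => z.coeff n) h1).trans h2

omit [IsScalarTower k k[X] B] in
theorem APLau_inj (l : B →+* LaurentSeries k) (A : Type) [CommRing A]
    [Algebra k A] (lA : (A ⊗[k] B) →+* LaurentSeries A) (hA : IsLx l lA)
    (hi : Function.Injective l) : Function.Injective lA := by
  rw [injective_iff_map_eq_zero]
  intro z hz
  classical
  let β := Module.Basis.ofVectorSpace k A
  obtain ⟨s, rfl⟩ := TensorProduct.eq_repr_basis_left β z
  have hs : s = 0 := by
    ext i
    have h1 : ∀ n : ℤ, (l (s i)).coeff n = 0 := by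
      intro n
      have h2 : (lA (s.sum fun i b => β i ⊗ₜ[k] b)).coeff n = 0 := by
        rw [hz]
        rfl
      rw [Finsupp.sum, map_sum, HahnSeries.coeff_sum] at h2
      have h3 : ∑ i ∈ s.support, ((l (s i)).coeff n) • β i = 0 := by
        rw [← h2]
        refine Finset.sum_congr rfl fun i _ => ?_
        rw [hA, Algebra.smul_def, mul_comm]
      by_cases hi' : i ∈ s.support
      · exact linearIndependent_iff'.1 β.linearIndependent s.support
          (fun i => (l (s i)).coeff n) h3 i hi'
      · rw [Finsupp.notMem_support_iff.1 hi', map_zero]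
        rfl
    have h2 : l (s i) = 0 := by
      ext n
      exact h1 n
    rw [Finsupp.coe_zero, Pi.zero_apply]
    exact hi (by rw [h2, map_zero])
  rw [hs, Finsupp.sum_zero_index]

omit [IsScalarTower k k[X] B] in
theorem APLau_nat (l : B →+* LaurentSeries k) (A A' : Type) [CommRing A] [Algebra k A]
    [CommRing A'] [Algebra k A'] (φ : A →ₐ[k] A')
    (lA : (A ⊗[k] B) →+* LaurentSeries A) (lA' : (A' ⊗[k] B) →+* LaurentSeries A')
    (hA : IsLx l lA) (hA' : IsLx l lA') (z : A ⊗[k] B) (n : ℤ) :
    (lA' (Algebra.TensorProduct.map φ (AlgHom.id k B) z)).coeff n = φ ((lA z).coeff n) := by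
  induction z with
  | zero => simp
  | tmul c b =>
    rw [Algebra.TensorProduct.map_tmul, hA', hA, map_mul, AlgHom.commutes, AlgHom.id_apply]
  | add x y hx hy =>
    rw [map_add, map_add, map_add, HahnSeries.coeff_add, HahnSeries.coeff_add, hx, hy, map_add]

end APLau

theorem prf_APLau : APLau := by
  intro k _ B _ _ _ _ l hl
  refine ⟨fun A _ _ => ?_, fun A A' _ _ _ _ φ lA lA' hA hA' z n =>
    APLau_nat l A A' φ lA lA' hA hA' z n⟩
  obtain ⟨lA, h⟩ := APLau_ex l hl A
  exact ⟨lA, h, APLau_inj l A lA h⟩

end MP7b0bad
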