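import Pool.Agent.Work.MP_7b0bad_ag.Bd.B06

set_option autoImplicit false

/-!
# Project AP (note 3854 (1)): all points are congruent modulo `r`

`B` is a connected Galois algebra over `k[x]`, `r` is invertible in `k`. For two general points
`y`, `y'` of `B` there is a nonzero `F` in `B` whose divisor is `y - y'` modulo `r`, and whose orders
at finitely many given embeddings `B → k((t))` (the places over infinity) are divisible by `r`.
-/

namespace MP7b0bad

open Polynomial TensorProduct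

/-- `K = k((T))`, a copy of `LaurentSeries k` with one canonical `k`-algebra structure -/
def Kf (k : Type) [Field k] : Type := LaurentSeries k

noncomputable instance instKfField (k : Type) [Field k] : Field (Kf k) :=
  inferInstanceAs (Field (LaurentSeries k))

noncomputable instance instKfAlg (k : Type) [Field k] : Algebra k (Kf k) :=
  inferInstanceAs (Algebra k (LaurentSeries k))

/-- the identity `K → k((T))` -/
noncomputable def kfl (k : Type) [Field k] : Kf k ≃+* LaurentSeries k :=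
  RingEquiv.refl (LaurentSeries k)

section Defs

variable {k : Type} [Field k] {B : Type} [CommRing B] [Algebra k[X] B]

/-- a point of `B` over `k` -/
def Pt (y : B →+* k) : Prop := ∀ c : k, y (algebraMap k[X] B (C c)) = c

/-- a homomorphism over `k` to Laurent series -/
def KHom (l : B →+* LaurentSeries k) : Prop :=
  ∀ c : k, l (algebraMap k[X] B (C c)) = HahnSeries.C c

/-- the completion of `B` at a point over `x = a`: `x ↦ a + s` -/
def Cpl (a : k) (j : B →+* LaurentSeries k) : Prop :=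
  KHom j ∧ j (algebraMap k[X] B X) = HahnSeries.C a + HahnSeries.single (1 : ℤ) (1 : k)

open Classical in
/-- `1` if `y` is the point of the completion `j`, `0` otherwise -/
noncomputable def hit (y : B →+* k) (j : B →+* LaurentSeries k) : ℤ :=
  if ∀ b : B, (j b).coeff 0 = y b then 1 else 0

/-- the `S`-span of the functions `g ↦ j (g⁻¹ b)` on `G` -/
def MSp {G : Type} [Group G] [MulSemiringAction G B] (j : B →+* LaurentSeries k)
    (v : G → Fk k) : Prop :=
  ∃ (m : ℕ) (s : Fin m → Fk k) (b : Fin m → B), (∀ i, s i ∈ Ss k) ∧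
    ∀ g, v g = ∑ i, s i * HahnSeries.C (j (g⁻¹ • b i))

/-- functions on `G` with values in `R` -/
def MRp {G : Type} (v : G → Fk k) : Prop := ∀ g, v g ∈ Rr k

open Classical in
/-- the function with value `z` at `1` and `1` elsewhere -/
noncomputable def dl {G : Type} [Group G] (z : Fk k) : G → Fk k := fun g => if g = 1 then z else 1

variable [Algebra k B]

/-- the homomorphism `K ⊗ B → Map(G, F)`, `c ⊗ b ↦ (g ↦ c j(g⁻¹ b))`, `K = k((T))` -/
def IsTh {G : Type} [Group G] [MulSemiringAction G B] (j : B →+* LaurentSeries k)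
    (th : (Kf k ⊗[k] B) →+* (G → Fk k)) : Prop :=
  ∀ (c : Kf k) (b : B) (g : G),
    th (c ⊗ₜ[k] b) g = KF k (kfl k c) * HahnSeries.C (j (g⁻¹ • b))

/-- the homomorphism `A ⊗ B → A((t))` defined by `l : B → k((t))` -/
def IsLx {A : Type} [CommRing A] [Algebra k A] (l : B →+* LaurentSeries k)
    (lA : (A ⊗[k] B) →+* LaurentSeries A) : Prop :=
  ∀ (c : A) (b : B) (n : ℤ), (lA (c ⊗ₜ[k] b)).coeff n = c * algebraMap k A ((l b).coeff n)

/-- the local parameter `x - a` at the point `y`, `a = y(x)` -/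
noncomputable def wat (y : B →+* k) : B := algebraMap k[X] B (X - C (y (algebraMap k[X] B X)))

/-- the certificate for `div f + (y) = div (x - a) + r div (a) + (i)` on `A ⊗ B`, where `i` is the
point `B → A`; `(a)` is the ideal generated by the `a m` -/
structure ACert (r : ℕ) {ι : Type} [Fintype ι] (b : ι → B) (y : B →+* k) {A : Type} [CommRing A]
    [Algebra k A] (i : B →+* A) (n : ℕ) (f : A ⊗[k] B) (a : Fin n → A ⊗[k] B) : Prop where
  eq1 : ∀ u : ι, ∃ q : (Fin r → Fin n) → ι → A ⊗[k] B,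
    f * ((1 : A) ⊗ₜ[k] (b u - algebraMap k B (y (b u)))) =
      ∑ α : Fin r → Fin n, ∑ l, ((1 : A) ⊗ₜ[k] wat y) * (∏ t, a (α t)) *
        ((1 : A) ⊗ₜ[k] b l - i (b l) ⊗ₜ[k] (1 : B)) * q α l
  eq2 : ∀ (α : Fin r → Fin n) (l : ι), ∃ q : ι → A ⊗[k] B,
    ((1 : A) ⊗ₜ[k] wat y) * (∏ t, a (α t)) * ((1 : A) ⊗ₜ[k] b l - i (b l) ⊗ₜ[k] (1 : B)) =
      ∑ u, f * ((1 : A) ⊗ₜ[k] (b u - algebraMap k B (y (b u)))) * q u

/-- the certificate for `div f + (y) = div (x - a) + r div (a) + (y')` on `B` -/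
structure BCert (r : ℕ) {ι : Type} [Fintype ι] (b : ι → B) (y y' : B →+* k) (n : ℕ) (f : B)
    (a : Fin n → B) : Prop where
  eq1 : ∀ u : ι, ∃ q : (Fin r → Fin n) → ι → B,
    f * (b u - algebraMap k B (y (b u))) =
      ∑ α : Fin r → Fin n, ∑ l, wat y * (∏ t, a (α t)) * (b l - algebraMap k B (y' (b l))) * q α l
  eq2 : ∀ (α : Fin r → Fin n) (l : ι), ∃ q : ι → B,
    wat y * (∏ t, a (α t)) * (b l - algebraMap k B (y' (b l))) =
      ∑ u, f * (b u - algebraMap k B (y (b u))) * q u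

end Defs

/-- a finite family of generators of the `k`-algebra `B` that contains `x` -/
def Gen (k : Type) [Field k] {B : Type} [CommRing B] [Algebra k[X] B] [Algebra k B] {ι : Type}
    (b : ι → B) : Prop :=
  (∃ u, b u = algebraMap k[X] B X) ∧ Algebra.adjoin k (Set.range b) = ⊤

/-! ## The statements -/

/-- existence of completions -/
def APCpl : Prop := ∀ (k : Type) [Field k] [IsAlgClosed k] (G : Type) [Group G] [Finite G]
  (B : Type) [CommRing B] [Algebra k[X] B] [MulSemiringAction G B], GalAlg k[X] G B →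
  ∀ y : B →+* k, Pt y → ∃ j : B →+* LaurentSeries k,
    Cpl (y (algebraMap k[X] B X)) j ∧ ∀ b, (j b).coeff 0 = y b

/-- the point of a completion; completions are injective -/
def APOrd : Prop := ∀ (k : Type) [Field k] (G : Type) [Group G] [Finite G]
  (B : Type) [CommRing B] [Algebra k[X] B] [MulSemiringAction G B], GalAlg k[X] G B →
  ∀ (a : k) (j : B →+* LaurentSeries k), Cpl a j →
  (∀ (b : B) (n : ℤ), n < 0 → (j b).coeff n = 0) ∧
  (∃ y : B →+* k, Pt y ∧ (∀ b, (j b).coeff 0 = y b) ∧ y (algebraMap k[X] B X) = a) ∧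
  (IsDomain B → Function.Injective j)

/-- there are points over every `a` -/
def APPt : Prop := ∀ (k : Type) [Field k] [IsAlgClosed k] (G : Type) [Group G] [Finite G]
  (B : Type) [CommRing B] [Algebra k[X] B] [MulSemiringAction G B], GalAlg k[X] G B →
  ∀ a : k, ∃ y : B →+* k, Pt y ∧ y (algebraMap k[X] B X) = a

/-- finite families of generators -/
def APGen : Prop := ∀ (k : Type) [Field k] (G : Type) [Group G] [Finite G]
  (B : Type) [CommRing B] [Algebra k[X] B] [Algebra k B] [IsScalarTower k k[X] B]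
  [MulSemiringAction G B], GalAlg k[X] G B → ∃ (n : ℕ) (b : Fin n → B), Gen k b

/-- `r`-th root of `(w - T) / w` in `S` -/
def APRoot : Prop := ∀ (k : Type) [Field k] (r : ℕ), (r : k) ≠ 0 →
  ∃ h h' : Fk k, h ∈ Ss k ∧ h' ∈ Ss k ∧ h * h' = 1 ∧ h ^ r * Ww k = Ww k - Tt k

/-- `w` and `w - T` are invertible in `S` -/
def APUnit : Prop := ∀ (k : Type) [Field k], Ww k ∈ Ss k ∧ (∃ w' ∈ Ss k, Ww k * w' = 1) ∧
  ∃ w' ∈ Ss k, (Ww k - Tt k) * w' = 1

/-- the homomorphism `K ⊗ B → Map(G, F)` -/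
def APTh : Prop := ∀ (k : Type) [Field k] (G : Type) [Group G] (B : Type) [CommRing B]
  [Algebra k[X] B] [Algebra k B] [IsScalarTower k k[X] B] [MulSemiringAction G B],
  GalAlg k[X] G B → ∀ j : B →+* LaurentSeries k, KHom j → Function.Injective j →
  ∃ th : (Kf k ⊗[k] B) →+* (G → Fk k), IsTh j th ∧ Function.Injective th

/-- functions on `G` in terms of a basis of `B` -/
def APBas : Prop := ∀ (k : Type) [Field k] (G : Type) [Group G] [Finite G]
  (B : Type) [CommRing B] [Algebra k[X] B] [MulSemiringAction G B], GalAlg k[X] G B →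
  ∀ (a : k) (j : B →+* LaurentSeries k), Cpl a j →
  (∀ (b : B) (n : ℤ), n < 0 → (j b).coeff n = 0) →
  ∃ (n : ℕ) (β : Module.Basis (Fin n) k[X] B),
    (∀ v : G → Fk k, ∃! c : Fin n → Fk k, ∀ g, v g = ∑ l, c l * HahnSeries.C (j (g⁻¹ • β l))) ∧
    (∀ v : G → Fk k, MRp v →
      ∃ c : Fin n → Fk k, (∀ l, c l ∈ Rr k) ∧ ∀ g, v g = ∑ l, c l * HahnSeries.C (j (g⁻¹ • β l))) ∧
    ∀ v : G → Fk k, MSp j v →
      ∃ c : Fin n → Fk k, (∀ l, c l ∈ Ss k) ∧ ∀ g, v g = ∑ l, c l * HahnSeries.C (j (g⁻¹ • β l))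

/-- closure properties of the `S`-span -/
def APMS : Prop := ∀ (k : Type) [Field k] (G : Type) [Group G] (B : Type) [CommRing B]
  [Algebra k[X] B] [Algebra k B] [IsScalarTower k k[X] B] [MulSemiringAction G B]
  (j : B →+* LaurentSeries k) (th : (Kf k ⊗[k] B) →+* (G → Fk k)), IsTh j th →
  (∀ u v : G → Fk k, MSp j u → MSp j v → MSp j (u + v) ∧ MSp j (u * v)) ∧
  (∀ s ∈ Ss k, MSp (G := G) j (fun _ => s)) ∧ ∀ z, MSp j (th z)

/-- patching of lattices: `I = M_S ∩ u M_R`, `u` concentrated at `1` -/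
def APLat : Prop := ∀ (k : Type) [Field k] (G : Type) [Group G] [Finite G]
  (B : Type) [CommRing B] [Algebra k[X] B] [MulSemiringAction G B], GalAlg k[X] G B →
  ∀ (a : k) (j : B →+* LaurentSeries k), Cpl a j →
  (∀ (b : B) (n : ℤ), n < 0 → (j b).coeff n = 0) → ∀ u u' : Fk k, u * u' = 1 →
  ∃ (m : ℕ) (e : Fin m → G → Fk k), (∀ i, MSp j (e i)) ∧ (∀ i, MRp (dl u' * e i)) ∧
    (∀ v, MSp j v → ∃ s : Fin m → Fk k, (∀ i, s i ∈ Ss k) ∧ ∀ g, v g = ∑ i, s i * e i g) ∧
    (∀ v : G → Fk k, MRp (dl u' * v) →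
      ∃ s : Fin m → Fk k, (∀ i, s i ∈ Rr k) ∧ ∀ g, v g = ∑ i, s i * e i g)

/-- `M_S ∩ M_R` is the image of `K ⊗ B` -/
def APInt : Prop := ∀ (k : Type) [Field k] (G : Type) [Group G] [Finite G]
  (B : Type) [CommRing B] [Algebra k[X] B] [Algebra k B] [IsScalarTower k k[X] B]
  [MulSemiringAction G B], GalAlg k[X] G B →
  ∀ (a : k) (j : B →+* LaurentSeries k), Cpl a j →
  (∀ (b : B) (n : ℤ), n < 0 → (j b).coeff n = 0) →
  ∀ th : (Kf k ⊗[k] B) →+* (G → Fk k), IsTh j th →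
  ∀ v, MSp j v → MRp v → ∃ z, th z = v

/-- descent of linear equations from `M_S` and `M_R` to `K ⊗ B` -/
def APLD : Prop := ∀ (k : Type) [Field k] (G : Type) [Group G] [Finite G]
  (B : Type) [CommRing B] [Algebra k[X] B] [Algebra k B] [IsScalarTower k k[X] B]
  [MulSemiringAction G B], GalAlg k[X] G B →
  ∀ (a : k) (j : B →+* LaurentSeries k), Cpl a j → Function.Injective j →
  (∀ (b : B) (n : ℤ), n < 0 → (j b).coeff n = 0) →
  ∀ th : (Kf k ⊗[k] B) →+* (G → Fk k), IsTh j th →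
  ∀ (ι : Type) [Fintype ι] (x : Kf k ⊗[k] B) (y : ι → Kf k ⊗[k] B),
  (∃ c : ι → G → Fk k, (∀ i, MRp (c i)) ∧ th x = ∑ i, c i * th (y i)) →
  (∃ s : ι → G → Fk k, (∀ i, MSp j (s i)) ∧ th x = ∑ i, s i * th (y i)) →
  ∃ z : ι → Kf k ⊗[k] B, x = ∑ i, z i * y i

/-- the ideals of the point `y` and of the generic point near `y`, over `R` -/
def APGn : Prop := ∀ (k : Type) [Field k] (G : Type) [Group G] [Finite G]
  (B : Type) [CommRing B] [Algebra k[X] B] [Algebra k B] [IsScalarTower k k[X] B]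
  [MulSemiringAction G B], GalAlg k[X] G B →
  ∀ (a : k) (j : B →+* LaurentSeries k), Cpl a j →
  (∀ (b : B) (n : ℤ), n < 0 → (j b).coeff n = 0) →
  ∀ (y : B →+* k), Pt y → (∀ b, (j b).coeff 0 = y b) →
  ∀ (ι : Type) [Fintype ι] (b : ι → B), Gen k b →
  ∀ (X1 X2 : ι → G → Fk k),
  (∀ u g, X1 u g = HahnSeries.C (j (g⁻¹ • (b u - algebraMap k B (y (b u)))))) →
  (∀ u g, X2 u g = HahnSeries.C (j (g⁻¹ • b u)) - KF k (j (b u))) →
  (∀ u, ∃ z : G → Fk k, MRp z ∧ X1 u = dl (Ww k) * z) ∧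
  (∃ z : ι → G → Fk k, (∀ u, MRp (z u)) ∧ ∑ u, z u * X1 u = dl (Ww k)) ∧
  (∀ u, ∃ z : G → Fk k, MRp z ∧ X2 u = dl (Ww k - Tt k) * z) ∧
  (∃ z : ι → G → Fk k, (∀ u, MRp (z u)) ∧ ∑ u, z u * X2 u = dl (Ww k - Tt k))

/-- the certificate over `K = k((T))` -/
def APK : Prop := ∀ (k : Type) [Field k] (r : ℕ), (r : k) ≠ 0 → ∀ (G : Type) [Group G] [Finite G]
  (B : Type) [CommRing B] [Algebra k[X] B] [Algebra k B] [IsScalarTower k k[X] B]
  [MulSemiringAction G B], GalAlg k[X] G B →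
  ∀ (a : k) (j : B →+* LaurentSeries k), Cpl a j → Function.Injective j →
  (∀ (b : B) (n : ℤ), n < 0 → (j b).coeff n = 0) →
  ∀ (y : B →+* k), Pt y → (∀ b, (j b).coeff 0 = y b) →
  ∀ (ι : Type) [Fintype ι] (b : ι → B), Gen k b →
  ∃ (n : ℕ) (f : Kf k ⊗[k] B) (c : Fin n → Kf k ⊗[k] B), f ≠ 0 ∧
    ACert r b y ((kfl k).symm.toRingHom.comp j) n f c

/-- spreading out -/
def APSpr : Prop := ∀ (k : Type) [Field k] (r : ℕ) (K : Type) [Field K] [Algebra k K] (B : Type)
  [CommRing B] [Algebra k[X] B] [Algebra k B] [IsScalarTower k k[X] B] (y : B →+* k) (i : B →+* K),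
  (∀ c : k, i (algebraMap k B c) = algebraMap k K c) →
  ∀ (ι : Type) [Fintype ι] (b : ι → B), Gen k b →
  ∀ (n : ℕ) (f : K ⊗[k] B) (a : Fin n → K ⊗[k] B), ACert r b y i n f a → ∀ Z : Finset K,
  ∃ (A : Subalgebra k K) (i' : B →+* A) (f' : A ⊗[k] B) (a' : Fin n → A ⊗[k] B), A.FG ∧
    (∀ z ∈ Z, z ∈ A) ∧ (∀ x, (i' x : K) = i x) ∧
    Algebra.TensorProduct.map A.val (AlgHom.id k B) f' = f ∧ ACert r b y i' n f' a'

/-- extension of points -/
def APExt : Prop := ∀ (k : Type) [Field k] [IsAlgClosed k] (B A : Type) [CommRing B] [IsDomain B]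
  [Algebra k B] [CommRing A] [IsDomain A] [Algebra k A] (i : B →ₐ[k] A), Function.Injective i →
  (⊤ : Subalgebra k B).FG → (⊤ : Subalgebra k A).FG → ∀ z : A, z ≠ 0 →
  ∃ c : B, c ≠ 0 ∧ ∀ y : B →ₐ[k] k, y c ≠ 0 → ∃ t : A →ₐ[k] k, (∀ b, t (i b) = y b) ∧ t z ≠ 0

/-- the homomorphisms `A ⊗ B → A((t))` -/
def APLau : Prop := ∀ (k : Type) [Field k] (B : Type) [CommRing B] [Algebra k[X] B] [Algebra k B]
  [IsScalarTower k k[X] B] (l : B →+* LaurentSeries k), KHom l →
  (∀ (A : Type) [CommRing A] [Algebra k A],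
    ∃ lA : (A ⊗[k] B) →+* LaurentSeries A, IsLx l lA ∧
      (Function.Injective l → Function.Injective lA)) ∧
  ∀ (A A' : Type) [CommRing A] [Algebra k A] [CommRing A'] [Algebra k A'] (φ : A →ₐ[k] A')
    (lA : (A ⊗[k] B) →+* LaurentSeries A) (lA' : (A' ⊗[k] B) →+* LaurentSeries A'),
    IsLx l lA → IsLx l lA' → ∀ (z : A ⊗[k] B) (n : ℤ),
      (lA' (Algebra.TensorProduct.map φ (AlgHom.id k B) z)).coeff n = φ ((lA z).coeff n)

/-- specialisation -/
def APSpec : Prop := ∀ (k : Type) [Field k] (r : ℕ) (B : Type) [CommRing B] [Algebra k[X] B]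
  [Algebra k B] [IsScalarTower k k[X] B] (A : Type) [CommRing A] [Algebra k A] (i : B →+* A)
  (t : A →ₐ[k] k) (y y' : B →+* k), Pt y → Pt y' → (∀ b, t (i b) = y' b) →
  ∀ (ι : Type) [Fintype ι] (b : ι → B) (n : ℕ) (f : A ⊗[k] B) (a : Fin n → A ⊗[k] B),
  ACert r b y i n f a → ∃ (f' : B) (a' : Fin n → B), BCert r b y y' n f' a' ∧
    ∀ (l : B →+* LaurentSeries k) (lA : (A ⊗[k] B) →+* LaurentSeries A), KHom l → IsLx l lA →
      ∀ m : ℤ, (l f').coeff m = t ((lA f).coeff m)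

/-- the divisor of `f` from a certificate -/
def APVal : Prop := ∀ (k : Type) [Field k] (r : ℕ) (G : Type) [Group G] [Finite G]
  (B : Type) [CommRing B] [IsDomain B] [Algebra k[X] B] [Algebra k B] [IsScalarTower k k[X] B]
  [MulSemiringAction G B], GalAlg k[X] G B → ∀ (y y' : B →+* k), Pt y → Pt y' →
  ∀ (ι : Type) [Fintype ι] (b : ι → B), Gen k b → ∀ (n : ℕ) (f : B) (c : Fin n → B), f ≠ 0 →
  BCert r b y y' n f c → ∀ (a : k) (j : B →+* LaurentSeries k), Cpl a j →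
  (r : ℤ) ∣ (j f).order + hit y j - (j (wat y)).order - hit y' j

/-- all points are congruent modulo `r` -/
def APC : Prop := ∀ (k : Type) [Field k] [IsAlgClosed k] (r : ℕ), (r : k) ≠ 0 →
  ∀ (G : Type) [Group G] [Finite G] (B : Type) [CommRing B] [IsDomain B] [Algebra k[X] B]
  [MulSemiringAction G B], GalAlg k[X] G B →
  ∀ (n : ℕ) (l : Fin n → B →+* LaurentSeries k), (∀ i, KHom (l i)) →
  (∀ i, Function.Injective (l i)) →
  ∃ c : B, c ≠ 0 ∧ ∀ y y' : B →+* k, Pt y → Pt y' → y c ≠ 0 → y' c ≠ 0 →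
    ∃ F : B, F ≠ 0 ∧ (∀ i, (r : ℤ) ∣ (l i F).order) ∧
      ∀ (a : k) (j : B →+* LaurentSeries k), Cpl a j →
        (r : ℤ) ∣ (j F).order - hit y j + hit y' j

end MP7b0bad
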